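import Pool.Agent.T2H62.MK.F

set_option autoImplicit false

/-! # Almost surely -/

namespace Pool.Agent.T2H62.MK

open Finset Filter Topology MeasureTheory ProbabilityTheory
open Pool.Agent.T2H62.MD
open Pool.Agent.T2H53.GW
open Pool.Agent.T2H62.MM (tlog)
open Pool.Agent.T2H62.MG (gp gp_iff)
open Pool.Agent.T2H62.MT (SG pr_zero)
open Pool.Agent.T2H62.ME (gap_law)

variable {Ω : Type*} [MeasurableSpace Ω] {μ : Measure Ω} [IsProbabilityMeasure μ] {S : ℕ → Set Ω}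

/-- almost surely, the large elements are odd -/
theorem odd_ae {A : ℝ} (hA : 0 < A) (hp : ∀ n, μ.real (S n) = pr A n) : ∃ n₀ : ℕ, ∀ᵐ ω ∂μ, ∀ n : ℕ, n₀ ≤ n → 2 ∣ n → ω ∉ S n := by
  obtain ⟨n₀, hn₀⟩ := eventually_atTop.1 (tlog.eventually_ge_atTop (2 / A))
  refine ⟨n₀, ?_⟩
  rw [ae_all_iff]
  intro n
  by_cases h1 : n₀ ≤ n ∧ 2 ∣ n
  · have h2 : μ (S n) = 0 := by
      have h3 : μ.real (S n) = 0 := by
        rw [hp]
        apply pr_zero A n 2 Nat.prime_two _ h1.2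
        have := hn₀ n h1.1
        rw [div_le_iff₀ hA] at this
        push_cast
        linarith
      exact (measureReal_eq_zero_iff).1 h3
    filter_upwards [measure_eq_zero_iff_ae_notMem.1 h2] with ω hω _ _
    exact hω
  · filter_upwards with ω h2 h3
    exact absurd ⟨h2, h3⟩ h1

/-- **almost surely** all estimates hold -/
theorem all_ae {A : ℝ} (hA : 0 < A) (hm : ∀ n, MeasurableSet (S n)) (hi : iIndepSet S μ) (hp : ∀ n, μ.real (S n) = pr A n)
    (σ : ℝ) (hσ : 0 < σ) (hSG : Tendsto SG atTop (𝓝 σ)) :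
    ∀ᵐ ω ∂μ, ∀ R : Set ℕ, R = {n | ω ∈ S n} → (∀ a : ℕ, ∃ n, a < n ∧ n ∈ R) ∧ Est σ R ∧
      (∀ᶠ N : ℕ in atTop, ∀ h : ℕ, ¬ 2 ∣ h → NG R h N = 0) ∧
      (∀ᶠ N : ℕ in atTop, ∀ h : ℕ, Real.log (N : ℝ) ^ 4 < h → NG R h N = 0) := by
  classical
  obtain ⟨n₀, hodd⟩ := odd_ae (μ := μ) (S := S) hA hp
  have hall : ∀ᵐ ω ∂μ, ∀ B : ℕ, ∀ᶠ N : ℕ in atTop, ∀ h H : ℕ, (h : ℝ) ≤ Real.log N ^ B → H < h →
      |(CP S ω N h H : ℝ) - GM A N h H| ≤ 4 * (N : ℝ) ^ (3 / 4 : ℝ) := ae_all_iff.2 fun B => cnt_pairs hm hi hp B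
  filter_upwards [hall, hodd, gap_law hA hm hi hp] with ω h1 h2 h3 R hR
  obtain ⟨-, -, hgap⟩ := h3 R (fun n => Classical.propDecidable _) hR
  have hunb : ∀ a : ℕ, ∃ n, a < n ∧ n ∈ R := by
    intro a
    obtain ⟨n₁, hn₁⟩ := eventually_atTop.1 hgap
    obtain ⟨n, hn, hnR⟩ := hn₁ (a + n₁) (by omega)
    rw [mem_Ioc] at hn
    exact ⟨n, by omega, hnR⟩
  refine ⟨hunb, ?_, ?_, ?_⟩
  · intro B lam hl ε hε
    filter_upwards [h1 B, GM_est hA σ hσ hSG B lam hl (ε / 2) (by positivity), log_pow_small 2 (8 / (ε * σ)) (1 / 4) (by norm_num) (by positivity),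
      eventually_ge_atTop 3] with N k1 k2 k3 k4 h H hh1 hh2 hhB hHh hH
    have hN0 : (0 : ℝ) < N := by exact_mod_cast (by omega : 0 < N)
    have hL0 : 0 < Real.log (N : ℝ) := Real.log_pos (by exact_mod_cast (by omega : 1 < N))
    have e0 : CP S ω N h H = CR R N h H := by
      unfold CP CR
      congr 1
      apply filter_congr
      intro r _
      rw [hR]
      rfl
    have g1 := k1 h H hhB hHh
    have g2 := k2 h H hh1 hh2 hhB hH
    rw [e0] at g1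
    have hF := FP_ge h
    have g3 : 4 * (N : ℝ) ^ (3 / 4 : ℝ) ≤ ε / 2 * (σ * FP h * (N / Real.log N ^ 2)) := by
      have c0 : (N : ℝ) ^ (3 / 4 : ℝ) * (N : ℝ) ^ (1 / 4 : ℝ) = N := by
        rw [← Real.rpow_add hN0]
        norm_num
      have c1 : 8 * Real.log N ^ 2 ≤ ε * σ * (N : ℝ) ^ (1 / 4 : ℝ) := by
        have := mul_le_mul_of_nonneg_left k3 (show 0 ≤ ε * σ by positivity)
        have e : ε * σ * (8 / (ε * σ) * Real.log N ^ 2) = 8 * Real.log N ^ 2 := by field_simp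
        linarith
      have c2 : 4 * (N : ℝ) ^ (3 / 4 : ℝ) * Real.log N ^ 2 ≤ ε / 2 * σ * N := by
        calc 4 * (N : ℝ) ^ (3 / 4 : ℝ) * Real.log N ^ 2 = (N : ℝ) ^ (3 / 4 : ℝ) * (8 * Real.log N ^ 2) / 2 := by ring
          _ ≤ (N : ℝ) ^ (3 / 4 : ℝ) * (ε * σ * (N : ℝ) ^ (1 / 4 : ℝ)) / 2 := by
              apply div_le_div_of_nonneg_right _ (by norm_num)
              exact mul_le_mul_of_nonneg_left c1 (by positivity)
          _ = ε / 2 * σ * ((N : ℝ) ^ (3 / 4 : ℝ) * (N : ℝ) ^ (1 / 4 : ℝ)) := by ring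
          _ = ε / 2 * σ * N := by rw [c0]
      have c3 : 4 * (N : ℝ) ^ (3 / 4 : ℝ) ≤ ε / 2 * σ * N / Real.log N ^ 2 := by
        rw [le_div_iff₀ (by positivity)]
        exact c2
      refine c3.trans ?_
      have e : ε / 2 * (σ * FP h * (N / Real.log N ^ 2)) = (ε / 2 * σ * N / Real.log N ^ 2) * FP h := by ring
      rw [e]
      exact le_mul_of_one_le_right (by positivity) hF
    calc _ ≤ |(CR R N h H : ℝ) - GM A N h H| + |GM A N h H - σ * FP h * Real.exp (-(H / Real.log N)) * (N / Real.log N ^ 2)| := abs_sub_le _ _ _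
      _ ≤ ε / 2 * (σ * FP h * (N / Real.log N ^ 2)) + ε / 2 * (σ * FP h * (N / Real.log N ^ 2)) := add_le_add (g1.trans g3) g2
      _ = ε * (σ * FP h * (N / Real.log N ^ 2)) := by ring
  · filter_upwards [eventually_ge_atTop n₀] with N hN h hh
    unfold NG
    rw [card_eq_zero, filter_eq_empty_iff]
    rintro r hr ⟨g1, g2⟩
    rw [mem_Ioc] at hr
    have g3 := (gp_mem hunb r).2
    rw [g2] at g3
    have b1 : ¬ 2 ∣ r := by
      intro h4
      rw [hR] at g1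
      exact h2 r (by omega) h4 g1
    have b2 : ¬ 2 ∣ r + h := by
      intro h4
      rw [hR] at g3
      exact h2 (r + h) (by omega) h4 g3
    omega
  · filter_upwards [eventually_forall_ge_atTop.2 hgap, tlog.eventually_ge_atTop 8, eventually_ge_atTop 3] with N k1 k2 k3 h hh
    unfold NG
    rw [card_eq_zero, filter_eq_empty_iff]
    rintro r hr ⟨-, g2⟩
    rw [mem_Ioc] at hr
    obtain ⟨n, hn1, hn2⟩ := k1 r hr.1.le
    rw [mem_Ioc] at hn1
    have h10 : gp R r ≤ n - r := by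
      apply Nat.sInf_le
      refine ⟨by omega, ?_⟩
      have : r + (n - r) = n := by omega
      rw [this]
      exact hn2
    have h11 : gp R r ≤ ⌊Real.log (r : ℝ) ^ (3 : ℝ)⌋₊ := by omega
    obtain ⟨L, hL⟩ : ∃ L, L = Real.log (N : ℝ) := ⟨_, rfl⟩
    rw [← hL] at hh k2
    have hN0 : (0 : ℝ) < N := by exact_mod_cast (by omega : 0 < N)
    have hr0 : (0 : ℝ) < r := by exact_mod_cast (by omega : 0 < r)
    have hlr0 : 0 ≤ Real.log (r : ℝ) := Real.log_nonneg (by exact_mod_cast (by omega : 1 ≤ r))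
    have hlr : Real.log (r : ℝ) ≤ 2 * L := by
      have b1 : (r : ℝ) ≤ 2 * N := by exact_mod_cast hr.2
      have b2 := Real.log_le_log hr0 b1
      rw [Real.log_mul (by norm_num) hN0.ne', ← hL] at b2
      have := Real.log_two_lt_d9
      linarith
    have h12 : Real.log (r : ℝ) ^ (3 : ℝ) ≤ L ^ 4 := by
      calc Real.log (r : ℝ) ^ (3 : ℝ) = Real.log (r : ℝ) ^ 3 := by norm_num
        _ ≤ (2 * L) ^ 3 := pow_le_pow_left₀ hlr0 hlr 3
        _ = 8 * L ^ 3 := by ring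
        _ ≤ L * L ^ 3 := mul_le_mul_of_nonneg_right k2 (by positivity)
        _ = L ^ 4 := by ring
    have h13 : (gp R r : ℝ) ≤ L ^ 4 := by
      calc (gp R r : ℝ) ≤ (⌊Real.log (r : ℝ) ^ (3 : ℝ)⌋₊ : ℕ) := by exact_mod_cast h11
        _ ≤ Real.log (r : ℝ) ^ (3 : ℝ) := Nat.floor_le (by positivity)
        _ ≤ _ := h12
    rw [g2] at h13
    linarith

end Pool.Agent.T2H62.MK
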