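import Pool.Agent.T2H62.MK.G

set_option autoImplicit false

/-! # The most frequent gap is small -/

namespace Pool.Agent.T2H62.MK

open Finset Filter Topology MeasureTheory ProbabilityTheory
open Pool.Agent.T2H62.MM (tlog)

variable {R : Set ℕ}

/-- **the most frequent gap is `o(log N)`** -/
theorem champ_small (hR : ∀ a : ℕ, ∃ n, a < n ∧ n ∈ R) (σ : ℝ) (hσ : 0 < σ) (hE : Est σ R)
    (hodd : ∀ᶠ N : ℕ in atTop, ∀ h : ℕ, ¬ 2 ∣ h → NG R h N = 0)
    (hlong : ∀ᶠ N : ℕ in atTop, ∀ h : ℕ, Real.log (N : ℝ) ^ 4 < h → NG R h N = 0) (l1 : ℝ) (hl10 : 0 < l1) (hl11 : l1 ≤ 1) :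
    ∀ᶠ N : ℕ in atTop, ∀ h : ℕ, (∀ h' : ℕ, NG R h' N ≤ NG R h N) → 0 < NG R h N ∧ (h : ℝ) ≤ l1 * Real.log N := by
  obtain ⟨ρ, hρ⟩ : ∃ ρ : ℝ, ρ = 1 - Real.exp (-(l1 / 2)) := ⟨_, rfl⟩
  have hρ0 : 0 < ρ := by
    have : Real.exp (-(l1 / 2)) < Real.exp 0 := Real.exp_lt_exp.2 (by linarith)
    rw [Real.exp_zero] at this
    linarith
  have hρ1 : ρ ≤ 1 := by
    have := Real.exp_pos (-(l1 / 2))
    linarith
  obtain ⟨e2, he2⟩ : ∃ e2 : ℝ, e2 = ρ / 8 := ⟨_, rfl⟩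
  have he20 : 0 < e2 := by rw [he2]; positivity
  filter_upwards [hE 4 1 one_pos e2 he20, FP_max e2 he20, hodd, hlong, tlog.eventually_ge_atTop (2 / l1 + 1), eventually_ge_atTop 1]
    with N h1 h3 h4 h5 h6 h6' h hmax
  obtain ⟨L, hL⟩ : ∃ L, L = Real.log (N : ℝ) := ⟨_, rfl⟩
  rw [← hL] at h1 h3 h5 h6 ⊢
  have hl12 : 0 < 2 / l1 := by positivity
  have hL1 : 1 ≤ L := by linarith
  have hL0 : 0 < L := by linarith
  have hN0 : (0 : ℝ) < N := by exact_mod_cast h6'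
  obtain ⟨W, hW⟩ : ∃ W, W = σ * ((N : ℝ) / L ^ 2) := ⟨_, rfl⟩
  have hW0 : 0 < W := by rw [hW]; positivity
  obtain ⟨P, hP1, hP2, hP3, hP4⟩ := h3
  have hL4 : L ≤ L ^ 4 := by
    calc L = L ^ 1 := (pow_one L).symm
      _ ≤ L ^ 4 := pow_le_pow_right₀ hL1 (by norm_num)
  have heP : ∀ x E : ℝ, σ * x * E * ((N : ℝ) / L ^ 2) = E * (x * W) := by intro x E; rw [hW]; ring
  have heP' : ∀ x : ℝ, σ * x * ((N : ℝ) / L ^ 2) = x * W := by intro x; rw [hW]; ring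
  have he21 : e2 ≤ 1 / 8 := by rw [he2]; linarith
  have hNP : (1 - 2 * e2) * (FP P * W) ≤ (NG R P N : ℝ) := by
    have hPL : (P : ℝ) ≤ L := by nlinarith
    have hcast : ((P - 1 : ℕ) : ℝ) = P - 1 := by rw [Nat.cast_sub hP1, Nat.cast_one]
    have k1 := (abs_le.1 (h1 P (P - 1) hP1 hP2 (hPL.trans hL4) (by omega) (by rw [hcast]; linarith))).1
    rw [heP, heP', hcast] at k1
    rw [NG_eq hR N P hP1]
    have k2 : 1 - e2 ≤ Real.exp (-((P - 1 : ℝ) / L)) := by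
      have c1 := Real.add_one_le_exp (-((P - 1 : ℝ) / L))
      have c2 : (P - 1 : ℝ) / L ≤ e2 := by
        rw [div_le_iff₀ hL0]
        linarith
      linarith
    have k3 : (1 - e2) * (FP P * W) ≤ Real.exp (-((P - 1 : ℝ) / L)) * (FP P * W) :=
      mul_le_mul_of_nonneg_right k2 (mul_nonneg (by linarith [FP_ge P]) hW0.le)
    linarith
  have hNP0 : (0 : ℝ) < NG R P N := by
    have : 0 < (1 - 2 * e2) * (FP P * W) := mul_pos (by linarith) (mul_pos (by linarith [FP_ge P]) hW0)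
    linarith
  have hmaxP : (NG R P N : ℝ) ≤ NG R h N := by exact_mod_cast hmax P
  have hNh : NG R h N ≠ 0 := by
    intro h7
    rw [h7, Nat.cast_zero] at hmaxP
    linarith
  have hh2 : 2 ∣ h := by
    by_contra h7
    exact hNh (h4 h h7)
  have hh1 : 1 ≤ h := by
    rcases Nat.eq_zero_or_pos h with h7 | h7
    · rw [h7] at hNh
      exact absurd (NG_zero hR N) hNh
    · exact h7
  have hhL : (h : ℝ) ≤ L ^ 4 := by
    by_contra h7
    push Not at h7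
    exact hNh (h5 h h7)
  refine ⟨Nat.pos_of_ne_zero hNh, ?_⟩
  have hFh := FP_ge h
  by_contra h7
  push Not at h7
  obtain ⟨H, hH⟩ : ∃ H, H = ⌊l1 * L⌋₊ := ⟨_, rfl⟩
  have hH1 : (H : ℝ) ≤ l1 * L := by rw [hH]; exact Nat.floor_le (by positivity)
  have hH2 : l1 * L < H + 1 := by rw [hH]; exact Nat.lt_floor_add_one _
  have hHh : H < h := by
    have : (H : ℝ) < h := lt_of_le_of_lt hH1 h7
    exact_mod_cast this
  have k1 := (abs_le.1 (h1 h H hh1 hh2 hhL hHh (by nlinarith))).2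
  rw [heP, heP'] at k1
  have k2 : Real.exp (-((H : ℝ) / L)) ≤ 1 - ρ := by
    rw [hρ, sub_sub_cancel]
    apply Real.exp_le_exp.2
    have c1 : l1 / 2 ≤ (H : ℝ) / L := by
      rw [le_div_iff₀ hL0]
      have c2 : 1 ≤ l1 * L / 2 := by
        have : l1 * (2 / l1) ≤ l1 * L := mul_le_mul_of_nonneg_left (by linarith) hl10.le
        have e : l1 * (2 / l1) = 2 := by field_simp
        linarith
      linarith
    linarith
  have k3 : (NG R h N : ℝ) ≤ CR R N h H := by exact_mod_cast NG_le hR N h H hHh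
  have hFW : 0 < FP h * W := mul_pos (by linarith) hW0
  have k4 : (NG R h N : ℝ) ≤ (1 - ρ + e2) * (FP h * W) := by
    have := mul_le_mul_of_nonneg_right k2 hFW.le
    linarith
  have k5 : FP h * W ≤ (1 + e2) * FP P * W := mul_le_mul_of_nonneg_right (hP4 h hh1 hhL) hW0.le
  have k6 : (1 - ρ + e2) * (FP h * W) ≤ (1 - ρ + e2) * ((1 + e2) * FP P * W) := mul_le_mul_of_nonneg_left k5 (by linarith)
  have hFP0 : 0 < FP P * W := mul_pos (by linarith [FP_ge P]) hW0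
  have k7 : (1 - ρ + e2) * (1 + e2) < 1 - 2 * e2 := by
    rw [he2]
    nlinarith
  have k8 : (1 - ρ + e2) * ((1 + e2) * FP P * W) < (1 - 2 * e2) * (FP P * W) := by
    have := mul_lt_mul_of_pos_right k7 hFP0
    nlinarith
  linarith

end Pool.Agent.T2H62.MK
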