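import Pool.Agent.T2H62.MK.A

set_option autoImplicit false

/-! # The singular series of the pairs -/

namespace Pool.Agent.T2H62.MK

open Finset Filter Topology MeasureTheory ProbabilityTheory
open Pool.Agent.T2H62.MD
open Pool.Agent.T2H53.GW
open Pool.Agent.T2H62.MM (tlog)
open Pool.Agent.T2H62.MG (ind ind_pos ind_neg ind_bd sum_ind WS Rq za zb za_tendsto za_zb zb_le VV_ab log4_ratio pr_hi pr_lo prime_pow_small VV_small)
open Pool.Agent.T2H62.MT (SG SG_lim cU cL cU_lim cL_lim zb_tendsto)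
open Pool.Agent.T2H62.ME (PP PP_eq PP_nonneg card_pair)
open Pool.Agent.H305R2 (VV)

/-- the arithmetic factor of the pair `0`, `h` -/
noncomputable def FP (h : ℕ) : ℝ := ∏ p ∈ h.primeFactors.erase 2, ((p : ℝ) - 1) / (p - 2)

theorem fac_ge (p : ℕ) (hp : p.Prime) (h2 : p ≠ 2) : 1 ≤ ((p : ℝ) - 1) / (p - 2) := by
  have h3 : 3 ≤ p := by
    have := hp.two_le
    omega
  have h4 : (3 : ℝ) ≤ p := by exact_mod_cast h3
  rw [le_div_iff₀ (by linarith)]
  linarith

theorem prod_ge (s : Finset ℕ) (hs : ∀ p ∈ s, p.Prime ∧ p ≠ 2) : 1 ≤ ∏ p ∈ s, ((p : ℝ) - 1) / (p - 2) :=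
  Finset.one_le_prod fun p hp => fac_ge p (hs p hp).1 (hs p hp).2

theorem FP_ge (h : ℕ) : 1 ≤ FP h := by
  unfold FP
  apply prod_ge
  intro p hp
  rw [mem_erase] at hp
  exact ⟨Nat.prime_of_mem_primeFactors hp.2, hp.1⟩

/-- the part of the small primes -/
noncomputable def FZ (z h : ℕ) : ℝ := ∏ p ∈ (PJ z).filter (fun p => p ∣ h ∧ p ≠ 2), ((p : ℝ) - 1) / (p - 2)

theorem PP_FZ (z h : ℕ) (hh : 2 ∣ h) : PP z h = PP z 2 * FZ z h := by
  unfold PP FZ
  rw [prod_filter, ← prod_mul_distrib]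
  refine prod_congr rfl fun p hp => ?_
  have hpp := PJ_prime hp
  by_cases h2 : p = 2
  · rw [if_neg (fun h3 : p ∣ h ∧ p ≠ 2 => h3.2 h2), mul_one, h2, if_pos hh, if_pos (dvd_refl 2)]
  · have h3 : ¬ p ∣ 2 := fun h4 => h2 ((Nat.prime_dvd_prime_iff_eq hpp Nat.prime_two).1 h4)
    have h4 : (3 : ℝ) ≤ p := by
      have := hpp.two_le
      exact_mod_cast (by omega : 3 ≤ p)
    rw [if_neg h3]
    by_cases h5 : p ∣ h
    · rw [if_pos h5, if_pos ⟨h5, h2⟩]
      have : (p : ℝ) - 2 ≠ 0 := by linarith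
      have : (p : ℝ) ≠ 0 := by linarith
      field_simp
    · rw [if_neg h5, if_neg (fun h6 : p ∣ h ∧ p ≠ 2 => h5 h6.1), mul_one]

/-- the part of the large primes -/
noncomputable def FL (z h : ℕ) : ℝ := ∏ p ∈ h.primeFactors.filter (fun p => z < p), ((p : ℝ) - 1) / (p - 2)

theorem FP_split (z h : ℕ) (hz : 2 ≤ z) (hh : 1 ≤ h) : FP h = FZ z h * FL z h := by
  unfold FP FZ FL
  rw [← prod_union]
  · refine prod_congr ?_ fun _ _ => rfl
    ext p
    rw [mem_erase, mem_union, mem_filter, mem_filter, Nat.mem_primeFactors]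
    unfold PJ
    rw [mem_filter, mem_Icc]
    constructor
    · rintro ⟨h1, h2, h3, h4⟩
      rcases Nat.lt_or_ge z p with h5 | h5
      · exact Or.inr ⟨⟨h2, h3, h4⟩, h5⟩
      · exact Or.inl ⟨⟨⟨h2.one_lt.le, h5⟩, h2⟩, h3, h1⟩
    · rintro (⟨⟨h1, h2⟩, h3, h4⟩ | ⟨⟨h1, h2, h3⟩, h4⟩)
      · exact ⟨h4, h2, h3, by omega⟩
      · exact ⟨by omega, h1, h2, h3⟩
  · rw [Finset.disjoint_left]
    intro p hp hq
    rw [mem_filter] at hp hq
    have h1 := hp.1
    unfold PJ at h1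
    rw [mem_filter, mem_Icc] at h1
    omega

theorem FL_bd (z h B : ℕ) (hz : 3 ≤ z) (hh : 1 ≤ h) (hB : h ≤ z ^ B) : 1 ≤ FL z h ∧ FL z h ≤ Real.exp (B / (z - 2)) := by
  have hz3 : (3 : ℝ) ≤ z := by exact_mod_cast hz
  have hmem : ∀ p ∈ h.primeFactors.filter (fun p => z < p), p.Prime ∧ z < p ∧ p ∣ h := by
    intro p hp
    rw [mem_filter, Nat.mem_primeFactors] at hp
    exact ⟨hp.1.1, hp.2, hp.1.2.1⟩
  constructor
  · unfold FL
    apply prod_ge
    intro p hp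
    exact ⟨(hmem p hp).1, by have := (hmem p hp).2.1; omega⟩
  · obtain ⟨P, hP⟩ : ∃ P, P = h.primeFactors.filter (fun p => z < p) := ⟨_, rfl⟩
    rw [← hP] at hmem
    have hcard : P.card ≤ B := by
      have h1 : ∏ p ∈ P, p ∣ h := by
        apply Finset.prod_primes_dvd
        · intro p hp
          exact (hmem p hp).1.prime
        · intro p hp
          exact (hmem p hp).2.2
      have h2 : ∏ p ∈ P, p ≤ h := Nat.le_of_dvd (by omega) h1
      have h3 : z ^ P.card ≤ ∏ p ∈ P, p := by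
        rw [← prod_const]
        exact prod_le_prod' fun p hp => (hmem p hp).2.1.le
      exact (Nat.pow_le_pow_iff_right (by omega)).1 ((h3.trans h2).trans hB)
    unfold FL
    rw [← hP]
    calc ∏ p ∈ P, ((p : ℝ) - 1) / (p - 2) ≤ ∏ p ∈ P, Real.exp (1 / ((z : ℝ) - 2)) := by
          apply Finset.prod_le_prod
          · intro p hp
            have := fac_ge p (hmem p hp).1 (by have := (hmem p hp).2.1; omega)
            linarith
          · intro p hp
            have h1 : (z : ℝ) ≤ p := by exact_mod_cast (hmem p hp).2.1.le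
            have h2 : ((p : ℝ) - 1) / (p - 2) = 1 / ((p : ℝ) - 2) + 1 := by
              have : (p : ℝ) - 2 ≠ 0 := by linarith
              field_simp
              ring
            rw [h2]
            have h3 : 1 / ((p : ℝ) - 2) ≤ 1 / ((z : ℝ) - 2) := div_le_div_of_nonneg_left (by norm_num) (by linarith) (by linarith)
            have := Real.add_one_le_exp (1 / ((z : ℝ) - 2))
            linarith
      _ = Real.exp (P.card * (1 / ((z : ℝ) - 2))) := by
          rw [prod_const, ← Real.exp_nat_mul]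
      _ ≤ Real.exp (B / (z - 2)) := by
          apply Real.exp_le_exp.2
          rw [mul_one_div]
          apply div_le_div_of_nonneg_right _ (by linarith)
          exact_mod_cast hcard

/-- **the singular series of all pairs** -/
theorem SP_approx (σ : ℝ) (hσ : 0 < σ) (hSG : Tendsto SG atTop (𝓝 σ)) (B : ℕ) (ε : ℝ) (hε : 0 < ε) :
    ∀ᶠ z : ℕ in atTop, ∀ h : ℕ, 1 ≤ h → 2 ∣ h → h ≤ z ^ B → |VV z ^ 2 * PP z h - σ * FP h| ≤ ε * (σ * FP h) := by
  have h1 : ∀ᶠ z : ℕ in atTop, SG z < (1 + ε) * σ := hSG.eventually_lt_const (by nlinarith)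
  have h2 : ∀ᶠ z : ℕ in atTop, (1 - ε) * σ < SG z * Real.exp (-(B / ((z : ℝ) - 2))) := by
    have h3 : Tendsto (fun z : ℕ => (B : ℝ) / ((z : ℝ) - 2)) atTop (𝓝 0) := by
      apply Tendsto.const_div_atTop
      exact tendsto_atTop_add_const_right _ (-2 : ℝ) tendsto_natCast_atTop_atTop
    have h4 := hSG.mul ((Real.continuous_exp.tendsto 0).comp (by simpa using h3.neg : Tendsto (fun z : ℕ => -((B : ℝ) / ((z : ℝ) - 2))) atTop (𝓝 0)))
    rw [Real.exp_zero, mul_one] at h4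
    exact h4.eventually_const_lt (by nlinarith)
  filter_upwards [h1, h2, eventually_ge_atTop 3] with z h1 h2 h3 h hh1 hh2 hB
  obtain ⟨g1, g2⟩ := FL_bd z h B h3 hh1 hB
  have g3 : VV z ^ 2 * PP z h = SG z * FZ z h := by
    rw [PP_FZ z h hh2]
    unfold SG
    ring
  have g4 := FP_split z h (by omega) hh1
  have g5 := FP_ge h
  have hz3 : (3 : ℝ) ≤ z := by exact_mod_cast h3
  have hFZ : 0 < FZ z h := by
    have : 1 ≤ FZ z h := by
      unfold FZ
      apply prod_ge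
      intro p hp
      rw [mem_filter] at hp
      exact ⟨PJ_prime hp.1, hp.2.2⟩
    linarith
  have hE : 0 < Real.exp (-(B / ((z : ℝ) - 2))) := Real.exp_pos _
  have hSG0 : 0 ≤ SG z := by
    unfold SG
    exact mul_nonneg (sq_nonneg _) (PP_nonneg z 2)
  have g6 : FP h * Real.exp (-(B / ((z : ℝ) - 2))) ≤ FZ z h := by
    have : FL z h * Real.exp (-(B / ((z : ℝ) - 2))) ≤ 1 := by
      calc FL z h * Real.exp (-(B / ((z : ℝ) - 2))) ≤ Real.exp (B / ((z : ℝ) - 2)) * Real.exp (-(B / ((z : ℝ) - 2))) :=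
            mul_le_mul_of_nonneg_right g2 hE.le
        _ = 1 := by rw [← Real.exp_add, add_neg_cancel, Real.exp_zero]
    rw [g4, mul_assoc]
    exact mul_le_of_le_one_right hFZ.le this
  have g7 : FZ z h ≤ FP h := by
    rw [g4]
    exact le_mul_of_one_le_right hFZ.le g1
  rw [g3, abs_le]
  constructor
  · have : (1 - ε) * σ * FP h ≤ SG z * Real.exp (-(B / ((z : ℝ) - 2))) * FP h := mul_le_mul_of_nonneg_right h2.le (by linarith)
    have : SG z * (FP h * Real.exp (-(B / ((z : ℝ) - 2)))) ≤ SG z * FZ z h := mul_le_mul_of_nonneg_left g6 hSG0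
    nlinarith
  · have : SG z * FZ z h ≤ SG z * FP h := mul_le_mul_of_nonneg_left g7 hSG0
    have : SG z * FP h ≤ (1 + ε) * σ * FP h := mul_le_mul_of_nonneg_right h1.le (by linarith)
    linarith

theorem rough_pairs (Z h N : ℕ) (hh : 1 ≤ h) :
    |∑ r ∈ Ioc N (2 * N), ind (Rq Z r) * ind (Rq Z (r + h)) - N * PP Z h| ≤ 3 ^ (PJ Z).card := by
  have h1 := leg_tuple {0, 0 + h} Z Z le_rfl N (2 * N) (by omega)
  rw [← sum_ind, PP_eq 0 h Z hh, card_pair 0 h hh] at h1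
  have h2 : ∑ n ∈ Ioc N (2 * N), ind (∀ t ∈ ({0, 0 + h} : Finset ℕ), Rq Z (n + t)) = ∑ r ∈ Ioc N (2 * N), ind (Rq Z r) * ind (Rq Z (r + h)) := by
    refine sum_congr rfl fun n _ => ?_
    have h3 : (∀ t ∈ ({0, 0 + h} : Finset ℕ), Rq Z (n + t)) ↔ (Rq Z n ∧ Rq Z (n + h)) := by
      simp
    by_cases h4 : Rq Z n ∧ Rq Z (n + h)
    · rw [ind_pos (h3.2 h4), ind_pos h4.1, ind_pos h4.2, mul_one]
    · rw [ind_neg (fun h5 => h4 (h3.1 h5))]
      by_cases h6 : Rq Z n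
      · rw [ind_neg (fun h7 => h4 ⟨h6, h7⟩ : ¬ Rq Z (n + h)), mul_zero]
      · rw [ind_neg h6, zero_mul]
  rw [h2] at h1
  have e1 : (((2 * N : ℕ) : ℝ) - N) = N := by push_cast; ring
  rw [e1] at h1
  refine h1.trans (le_of_eq ?_)
  norm_num

/-- **the mean number of pairs** -/
theorem pair_sum {A : ℝ} (hA : 0 < A) (σ : ℝ) (hσ : 0 < σ) (hSG : Tendsto SG atTop (𝓝 σ)) (B : ℕ) (ε : ℝ) (hε : 0 < ε) :
    ∀ᶠ N : ℕ in atTop, ∀ h : ℕ, 1 ≤ h → 2 ∣ h → (h : ℝ) ≤ Real.log N ^ B →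
      |∑ r ∈ Ioc N (2 * N), pr A r * pr A (r + h) - σ * FP h * (N / Real.log N ^ 2)| ≤ ε * (σ * FP h * (N / Real.log N ^ 2)) := by
  obtain ⟨δ, hδ⟩ : ∃ δ, δ = min (ε / 8) (1 / 8) := ⟨_, rfl⟩
  have hδ0 : 0 < δ := by rw [hδ]; exact lt_min (by positivity) (by norm_num)
  have hδε : δ ≤ ε / 8 := by rw [hδ]; exact min_le_left _ _
  have hδ1 : δ ≤ 1 / 8 := by rw [hδ]; exact min_le_right _ _
  obtain ⟨a₀, ha₀, hlo⟩ := pr_lo hA
  have hR : ∀ᶠ N : ℕ in atTop, (VV (zb A N) / VV (za A N)) ^ 2 < 1 + δ := by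
    have h1 := (VV_ab hA).pow 2
    rw [one_pow] at h1
    exact h1.eventually_lt_const (by linarith)
  have hR2 : ∀ᶠ N : ℕ in atTop, 1 - δ < ((VV (zb A N) / VV (za A N)) ^ 2)⁻¹ * ((Real.log (4 * (N : ℝ)) / Real.log N) ^ 2)⁻¹ := by
    have h1 := (((VV_ab hA).pow 2).inv₀ (by norm_num)).mul ((log4_ratio.pow 2).inv₀ (by norm_num))
    rw [one_pow, inv_one, mul_one] at h1
    exact h1.eventually_const_lt (by linarith)
  have hzlog : ∀ᶠ N : ℕ in atTop, Real.log (N : ℝ) ≤ (za A N : ℝ) ^ 2 := by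
    filter_upwards [tlog.eventually_ge_atTop (4 / A ^ 2 + 2 / A)] with N h1
    have h2 : A * Real.log N < za A N + 1 := by
      unfold za
      exact Nat.lt_floor_add_one _
    have h3 : 2 ≤ A * Real.log N := by
      have : A * (2 / A) ≤ A * Real.log N := mul_le_mul_of_nonneg_left (by have : 0 < 4 / A ^ 2 := by positivity
                                                                           linarith) hA.le
      have e : A * (2 / A) = 2 := by field_simp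
      linarith
    have h4 : A * Real.log N / 2 ≤ za A N := by linarith
    have h5 : (A * Real.log N / 2) ^ 2 ≤ (za A N : ℝ) ^ 2 := pow_le_pow_left₀ (by linarith) h4 2
    have h6 : 4 / A ^ 2 ≤ Real.log N := by
      have : 0 < 2 / A := by positivity
      linarith
    have h7 : Real.log (N : ℝ) ≤ (A * Real.log N / 2) ^ 2 := by
      have h8 : A ^ 2 / 4 * (4 / A ^ 2) ≤ A ^ 2 / 4 * Real.log N := mul_le_mul_of_nonneg_left h6 (by positivity)
      have e : A ^ 2 / 4 * (4 / A ^ 2) = 1 := by field_simp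
      have h9 : 0 < Real.log (N : ℝ) := by
        have : 0 < 4 / A ^ 2 := by positivity
        linarith
      nlinarith
    linarith
  filter_upwards [(za_tendsto hA).eventually (SP_approx σ hσ hSG (2 * B) δ hδ0), (zb_tendsto hA).eventually (SP_approx σ hσ hSG (2 * B) δ hδ0),
    hR, hR2, zb_le hA, prime_pow_small 3 (by norm_num) (2 * A) (by positivity), VV_small 2 1 one_pos,
    log_pow_small 4 (1 / (δ * σ)) (1 / 2) (by norm_num) (by positivity), hzlog, eventually_ge_atTop a₀, tlog.eventually_ge_atTop (2 * A + 1), log_pow_small B 1 1 one_pos one_pos]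
    with N h1 h2 hR hR2 hz h3 h4 h5 h6 h7 h8 h9 h hh1 hh2 hhB
  obtain ⟨L, hL⟩ : ∃ L, L = Real.log (N : ℝ) := ⟨_, rfl⟩
  rw [← hL] at hR2 hz h3 h4 h5 h6 h8 h9 hhB ⊢
  have hhN : h ≤ N := by
    rw [one_mul, Real.rpow_one] at h9
    exact_mod_cast hhB.trans h9
  have hN3 : (3 : ℝ) ≤ N := by exact_mod_cast (ha₀.trans h7)
  have hN0 : (0 : ℝ) < N := by linarith
  have hL0 : 0 < L := by linarith
  have hl4 : 0 < Real.log (4 * (N : ℝ)) := Real.log_pos (by linarith)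
  have hVa : 0 < VV (za A N) := by linarith [one_le_VV (za A N)]
  have hVb : 0 < VV (zb A N) := by linarith [one_le_VV (zb A N)]
  have hFP := FP_ge h
  obtain ⟨F, hF⟩ : ∃ F, F = σ * FP h := ⟨_, rfl⟩
  have hFσ : σ ≤ F := by rw [hF]; nlinarith
  have hF0 : 0 < F := by linarith
  have hza : h ≤ (za A N) ^ (2 * B) := by
    have b1 : (h : ℝ) ≤ (za A N : ℝ) ^ (2 * B) := by
      rw [pow_mul]
      exact hhB.trans (pow_le_pow_left₀ hL0.le h6 B)
    exact_mod_cast b1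
  have hzab := za_zb hA N (by
    have : (1 : ℝ) ≤ N := by linarith
    exact_mod_cast this)
  have hzb : h ≤ (zb A N) ^ (2 * B) := hza.trans (Nat.pow_le_pow_left hzab _)
  have k1 := h1 h hh1 hh2 hza
  have k2 := h2 h hh1 hh2 hzb
  rw [← hF] at k1 k2 ⊢
  have hzaL : ((za A N : ℕ) : ℝ) ≤ 2 * A * L := by
    have : ((za A N : ℕ) : ℝ) ≤ zb A N := by exact_mod_cast hzab
    exact this.trans hz.2
  have m1 := rough_pairs (za A N) h N hh1
  have m2 := rough_pairs (zb A N) h N hh1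
  have m3 := h3 (za A N) hzaL
  have m4 := h3 (zb A N) hz.2
  -- the error term
  have hVbL : VV (zb A N) ≤ L := by
    have := h4 (zb A N) (by
      calc ((zb A N : ℕ) : ℝ) ≤ 2 * A * L := hz.2
        _ ≤ L * L := mul_le_mul_of_nonneg_right (by linarith) hL0.le
        _ = L ^ 2 := by ring)
    rwa [Real.rpow_one] at this
  have hVab : VV (za A N) ≤ VV (zb A N) := VV_mono hzab
  have hNs : (N : ℝ) ^ (1 / 2 : ℝ) * (N : ℝ) ^ (1 / 2 : ℝ) = N := by
    rw [← Real.rpow_add hN0]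
    norm_num
  have herr : (N : ℝ) ^ (1 / 2 : ℝ) ≤ δ * (F * (N / L ^ 2)) := by
    have c1 : L ^ 4 ≤ δ * σ * (N : ℝ) ^ (1 / 2 : ℝ) := by
      have := mul_le_mul_of_nonneg_left h5 (show 0 ≤ δ * σ by positivity)
      have e : δ * σ * (1 / (δ * σ) * L ^ 4) = L ^ 4 := by field_simp
      linarith
    have c2 : (1 : ℝ) ≤ L ^ 2 := one_le_pow₀ (by linarith)
    have c3 : L ^ 2 ≤ δ * F * (N : ℝ) ^ (1 / 2 : ℝ) := by
      calc L ^ 2 ≤ L ^ 2 * L ^ 2 := le_mul_of_one_le_right (by positivity) c2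
        _ = L ^ 4 := by ring
        _ ≤ δ * σ * (N : ℝ) ^ (1 / 2 : ℝ) := c1
        _ ≤ δ * F * (N : ℝ) ^ (1 / 2 : ℝ) := by
            apply mul_le_mul_of_nonneg_right _ (by positivity)
            exact mul_le_mul_of_nonneg_left hFσ hδ0.le
    rw [show δ * (F * (N / L ^ 2)) = (δ * F * N) / L ^ 2 by ring, le_div_iff₀ (by positivity)]
    calc (N : ℝ) ^ (1 / 2 : ℝ) * L ^ 2 ≤ (N : ℝ) ^ (1 / 2 : ℝ) * (δ * F * (N : ℝ) ^ (1 / 2 : ℝ)) := mul_le_mul_of_nonneg_left c3 (by positivity)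
      _ = δ * F * ((N : ℝ) ^ (1 / 2 : ℝ) * (N : ℝ) ^ (1 / 2 : ℝ)) := by ring
      _ = δ * F * N := by rw [hNs]
  have hcb : (VV (zb A N) / L) ^ 2 ≤ 1 := by
    apply pow_le_one₀ (by positivity)
    rw [div_le_one hL0]
    exact hVbL
  have hNL : 0 < F * (N / L ^ 2) := by positivity
  rw [abs_le]
  constructor
  · -- lower bound
    have s1 : (VV (za A N) / Real.log (4 * N)) ^ 2 * ∑ r ∈ Ioc N (2 * N), ind (Rq (zb A N) r) * ind (Rq (zb A N) (r + h)) ≤
        ∑ r ∈ Ioc N (2 * N), pr A r * pr A (r + h) := by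
      rw [mul_sum]
      apply sum_le_sum
      intro r hr
      rw [mem_Ioc] at hr
      have b1 := hlo N r h7 hr.1 (by omega)
      have b2 := hlo N (r + h) h7 (by omega) (by omega)
      have hV : 0 ≤ VV (za A N) / Real.log (4 * N) := by positivity
      calc (VV (za A N) / Real.log (4 * N)) ^ 2 * (ind (Rq (zb A N) r) * ind (Rq (zb A N) (r + h))) =
            (VV (za A N) / Real.log (4 * N) * ind (Rq (zb A N) r)) * (VV (za A N) / Real.log (4 * N) * ind (Rq (zb A N) (r + h))) := by ring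
        _ ≤ _ := mul_le_mul b1 b2 (mul_nonneg hV (ind_bd _).1) (pr_nonneg A _)
    have s2 : (N : ℝ) * PP (zb A N) h - (N : ℝ) ^ (1 / 2 : ℝ) ≤ ∑ r ∈ Ioc N (2 * N), ind (Rq (zb A N) r) * ind (Rq (zb A N) (r + h)) := by
      have := (abs_le.1 m2).1
      linarith
    obtain ⟨u, hu⟩ : ∃ u, u = (VV (za A N) / Real.log (4 * N)) ^ 2 := ⟨_, rfl⟩
    rw [← hu] at s1
    have hu0 : 0 ≤ u := by rw [hu]; positivity
    have hl4L : L ≤ Real.log (4 * (N : ℝ)) := by
      rw [hL]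
      exact Real.log_le_log hN0 (by linarith)
    have hu1 : u ≤ 1 := by
      rw [hu]
      apply pow_le_one₀ (by positivity)
      rw [div_le_one hl4]
      linarith
    have s3 : u * (N * PP (zb A N) h) = (((VV (zb A N) / VV (za A N)) ^ 2)⁻¹ * ((Real.log (4 * (N : ℝ)) / L) ^ 2)⁻¹) * (VV (zb A N) ^ 2 * PP (zb A N) h) * (N / L ^ 2) := by
      rw [hu]
      field_simp
    have s4 : (1 - δ) * F ≤ VV (zb A N) ^ 2 * PP (zb A N) h := by
      have := (abs_le.1 k2).1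
      linarith
    have s5 : (1 - δ) * ((1 - δ) * F) ≤ (((VV (zb A N) / VV (za A N)) ^ 2)⁻¹ * ((Real.log (4 * (N : ℝ)) / L) ^ 2)⁻¹) * (VV (zb A N) ^ 2 * PP (zb A N) h) :=
      mul_le_mul hR2.le s4 (mul_nonneg (by linarith) hF0.le) (by positivity)
    have s6 : (1 - δ) * ((1 - δ) * F) * (N / L ^ 2) ≤ u * (N * PP (zb A N) h) := by
      rw [s3]
      exact mul_le_mul_of_nonneg_right s5 (by positivity)
    have s7 : u * (N : ℝ) ^ (1 / 2 : ℝ) ≤ δ * (F * (N / L ^ 2)) := (mul_le_of_le_one_left (by positivity) hu1).trans herr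
    have s8 : u * ((N : ℝ) * PP (zb A N) h - (N : ℝ) ^ (1 / 2 : ℝ)) ≤ u * ∑ r ∈ Ioc N (2 * N), ind (Rq (zb A N) r) * ind (Rq (zb A N) (r + h)) :=
      mul_le_mul_of_nonneg_left s2 hu0
    have s9 : (1 - δ) * ((1 - δ) * F) * (N / L ^ 2) = (1 - 2 * δ + δ ^ 2) * (F * (N / L ^ 2)) := by ring
    nlinarith [mul_nonneg (sq_nonneg δ) hNL.le]
  · -- upper bound
    have s1 : ∑ r ∈ Ioc N (2 * N), pr A r * pr A (r + h) ≤
        (VV (zb A N) / L) ^ 2 * ∑ r ∈ Ioc N (2 * N), ind (Rq (za A N) r) * ind (Rq (za A N) (r + h)) := by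
      rw [mul_sum]
      apply sum_le_sum
      intro r hr
      rw [mem_Ioc] at hr
      have hN3' : 3 ≤ N := ha₀.trans h7
      have b1 := pr_hi hA N r hN3' hr.1 (by omega)
      have b2 := pr_hi hA N (r + h) hN3' (by omega) (by omega)
      rw [← hL] at b1 b2
      have hV : 0 ≤ VV (zb A N) / L := by positivity
      calc pr A r * pr A (r + h) ≤ (VV (zb A N) / L * ind (Rq (za A N) r)) * (VV (zb A N) / L * ind (Rq (za A N) (r + h))) :=
            mul_le_mul b1 b2 (pr_nonneg A _) (mul_nonneg hV (ind_bd _).1)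
        _ = _ := by ring
    have s2 : ∑ r ∈ Ioc N (2 * N), ind (Rq (za A N) r) * ind (Rq (za A N) (r + h)) ≤ (N : ℝ) * PP (za A N) h + (N : ℝ) ^ (1 / 2 : ℝ) := by
      have := (abs_le.1 m1).2
      linarith
    obtain ⟨u, hu⟩ : ∃ u, u = (VV (zb A N) / L) ^ 2 := ⟨_, rfl⟩
    rw [← hu] at s1 hcb
    have hu0 : 0 ≤ u := by rw [hu]; positivity
    have s3 : u * (N * PP (za A N) h) = (VV (zb A N) / VV (za A N)) ^ 2 * (VV (za A N) ^ 2 * PP (za A N) h) * (N / L ^ 2) := by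
      rw [hu]
      field_simp
    have s4 : VV (za A N) ^ 2 * PP (za A N) h ≤ (1 + δ) * F := by
      have := (abs_le.1 k1).2
      linarith
    have s5 : (VV (zb A N) / VV (za A N)) ^ 2 * (VV (za A N) ^ 2 * PP (za A N) h) ≤ (1 + δ) * ((1 + δ) * F) :=
      mul_le_mul hR.le s4 (mul_nonneg (sq_nonneg _) (PP_nonneg _ _)) (by linarith)
    have s6 : u * (N * PP (za A N) h) ≤ (1 + δ) * ((1 + δ) * F) * (N / L ^ 2) := by
      rw [s3]
      exact mul_le_mul_of_nonneg_right s5 (by positivity)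
    have s7 : u * (N : ℝ) ^ (1 / 2 : ℝ) ≤ δ * (F * (N / L ^ 2)) := (mul_le_of_le_one_left (by positivity) hcb).trans herr
    have s8 := mul_le_mul_of_nonneg_left s2 hu0
    have s9 : (1 + δ) * ((1 + δ) * F) * (N / L ^ 2) = (1 + 2 * δ + δ ^ 2) * (F * (N / L ^ 2)) := by ring
    have s10 : δ ^ 2 ≤ δ := by nlinarith
    nlinarith [mul_le_mul_of_nonneg_right s10 hNL.le]

end Pool.Agent.T2H62.MK
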