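import Pool.Agent.T2H62.MK.B

set_option autoImplicit false

/-! # Pairs with an empty window between them: the mean -/

namespace Pool.Agent.T2H62.MK

open Finset Filter Topology MeasureTheory ProbabilityTheory
open Pool.Agent.T2H62.MD
open Pool.Agent.T2H53.GW
open Pool.Agent.T2H62.MM (tlog)
open Pool.Agent.T2H62.MG (ind ind_pos ind_neg ind_bd WS Rq za zb za_tendsto za_zb zb_le VV_ab log4_ratio pr_hi pr_lo Bad bad_few')
open Pool.Agent.T2H62.MT (SG bad_eq)
open Pool.Agent.T2H62.ME (PP V1 V1_VV Mw Mw_nonneg prod_exp exp_lip)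
open Pool.Agent.H305R2 (VV)

theorem PP0 (z : ℕ) : PP z 0 = (VV z)⁻¹ := by
  have h1 : PP z 0 = V1 z := by
    unfold PP V1
    refine prod_congr rfl fun p _ => ?_
    rw [if_pos (dvd_zero p), one_div]
  rw [h1]
  exact eq_inv_of_mul_eq_one_right (V1_VV _)

theorem ind_sq (Q : Prop) : ind Q * ind Q = ind Q := by
  by_cases h : Q
  · rw [ind_pos h, mul_one]
  · rw [ind_neg h, mul_zero]

theorem Mw_hi {A : ℝ} (hA : 0 < A) (N n H : ℕ) (hN : 3 ≤ N) (h1 : N < n) (h2 : n ≤ 2 * N) (hH : H ≤ N) :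
    Mw A H n ≤ (VV (zb A N) / Real.log N) * WS (Rq (za A N)) 0 H n := by
  unfold Mw WS
  rw [mul_sum]
  apply sum_le_sum
  intro a ha
  rw [mem_Icc] at ha
  rw [add_zero, ind_sq]
  exact pr_hi hA N (n + a) hN (by omega) (by omega)

theorem Mw_lo {A : ℝ} (hA : 0 < A) : ∃ a₀ : ℕ, 3 ≤ a₀ ∧ ∀ N n H : ℕ, a₀ ≤ N → N < n → n ≤ 2 * N → H ≤ N →
    (VV (za A N) / Real.log (4 * N)) * WS (Rq (zb A N)) 0 H n ≤ Mw A H n := by
  obtain ⟨a₀, h0, hpr⟩ := pr_lo hA
  refine ⟨a₀, h0, fun N n H hN h1 h2 hH => ?_⟩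
  unfold Mw WS
  rw [mul_sum]
  apply sum_le_sum
  intro a ha
  rw [mem_Icc] at ha
  rw [add_zero, ind_sq]
  exact hpr N (n + a) hN (by omega) (by omega)

/-- windows which are not very short -/
theorem few_long {A : ℝ} (hA : 0 < A) (D : ℕ) (hD : 1 ≤ D) (lam : ℝ) (hl : 0 < lam) (δ : ℝ) (hδ : 0 < δ) (K : ℕ) :
    ∀ᶠ N : ℕ in atTop, ∀ H : ℕ, Real.log N ≤ D * H → (H : ℝ) ≤ lam * Real.log N →
      (((Ioc N (2 * N)).filter (fun n => δ < |Mw A H n - H / Real.log N|)).card : ℝ) ≤ N / Real.log N ^ K := by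
  classical
  obtain ⟨ε, hε⟩ : ∃ ε, ε = min (1 / 2) (δ / (4 * lam)) := ⟨_, rfl⟩
  have hε0 : 0 < ε := by rw [hε]; exact lt_min (by norm_num) (by positivity)
  have hε1 : ε ≤ 1 / 2 := by rw [hε]; exact min_le_left _ _
  have hεl : ε * lam ≤ δ / 4 := by
    have : ε ≤ δ / (4 * lam) := by rw [hε]; exact min_le_right _ _
    rw [le_div_iff₀ (by positivity)] at this
    linarith
  obtain ⟨a₀, ha₀, hlo⟩ := Mw_lo hA
  have hU : ∀ᶠ N : ℕ in atTop, VV (zb A N) / VV (za A N) < 1 + ε := (VV_ab hA).eventually_lt_const (by linarith)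
  have hL' : ∀ᶠ N : ℕ in atTop, 1 - ε < (VV (zb A N) / VV (za A N))⁻¹ * (Real.log (4 * (N : ℝ)) / Real.log N)⁻¹ := by
    have h1 := ((VV_ab hA).inv₀ one_ne_zero).mul (log4_ratio.inv₀ one_ne_zero)
    rw [inv_one, one_mul] at h1
    exact h1.eventually_const_lt (by linarith)
  filter_upwards [bad_few' D hD (2 * A) (by positivity) 0 (dvd_zero 2) ε hε0 2 (K + 1), zb_le hA, hU, hL',
    eventually_ge_atTop a₀, log_pow_small 2 1 1 one_pos one_pos, tlog.eventually_ge_atTop (lam + 2)]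
    with N h1 h2 hU hL' h4 h5 h6 H hH1 hH2
  obtain ⟨L, hLL⟩ : ∃ L, L = Real.log (N : ℝ) := ⟨_, rfl⟩
  rw [← hLL] at h1 h2 h5 h6 hL' hH1 hH2 ⊢
  have hN0 : (0 : ℝ) < N := by exact_mod_cast (by omega : 0 < N)
  have hL0 : 0 < L := by linarith
  have hHB : (H : ℝ) ≤ L ^ 2 := by
    refine hH2.trans ?_
    rw [sq]
    exact mul_le_mul_of_nonneg_right (by linarith) hL0.le
  have hHN : H ≤ N := by
    rw [one_mul, Real.rpow_one] at h5
    exact_mod_cast hHB.trans h5
  have hzaL : ((za A N : ℕ) : ℝ) ≤ 2 * A * L := by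
    have : ((za A N : ℕ) : ℝ) ≤ zb A N := by exact_mod_cast za_zb hA N (by omega)
    exact this.trans h2.2
  have k1 := h1 (za A N) H N (2 * N) hzaL hH1 hHB (by omega) (by omega)
  have k2 := h1 (zb A N) H N (2 * N) h2.2 hH1 hHB (by omega) (by omega)
  rw [← bad_eq] at k1 k2
  have hsub : (Ioc N (2 * N)).filter (fun n => δ < |Mw A H n - H / L|) ⊆
      (Ioc N (2 * N)).filter (fun n => ε * (H * PP (za A N) 0) < |WS (Rq (za A N)) 0 H n - H * PP (za A N) 0|) ∪
      (Ioc N (2 * N)).filter (fun n => ε * (H * PP (zb A N) 0) < |WS (Rq (zb A N)) 0 H n - H * PP (zb A N) 0|) := by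
    intro n hn
    rw [mem_filter] at hn
    rw [mem_union, mem_filter, mem_filter]
    by_contra hcon
    push Not at hcon
    have g1 := (abs_le.1 (hcon.1 hn.1)).2
    have g2 := (abs_le.1 (hcon.2 hn.1)).1
    have hn1 := hn.1
    rw [mem_Ioc] at hn1
    have hVa : 0 < VV (za A N) := by linarith [one_le_VV (za A N)]
    have hVb : 0 < VV (zb A N) := by linarith [one_le_VV (zb A N)]
    have hl4 : 0 < Real.log (4 * (N : ℝ)) := Real.log_pos (by
      have : (3 : ℝ) ≤ N := by exact_mod_cast (ha₀.trans h4)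
      linarith)
    have g3 := Mw_hi hA N n H (by omega) hn1.1 hn1.2 hHN
    have g4 := hlo N n H h4 hn1.1 hn1.2 hHN
    rw [← hLL] at g3
    rw [PP0] at g1 g2
    have hHL : (H : ℝ) / L ≤ lam := by rw [div_le_iff₀ hL0]; exact hH2
    have hHL0 : 0 ≤ (H : ℝ) / L := by positivity
    have g5 : Mw A H n ≤ (1 + ε) * ((1 + ε) * (H / L)) := by
      have c1 : WS (Rq (za A N)) 0 H n ≤ (1 + ε) * (H * (VV (za A N))⁻¹) := by linarith
      have c2 : VV (zb A N) / L * ((1 + ε) * (H * (VV (za A N))⁻¹)) = VV (zb A N) / VV (za A N) * ((1 + ε) * (H / L)) := by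
        field_simp
      calc Mw A H n ≤ VV (zb A N) / L * WS (Rq (za A N)) 0 H n := g3
        _ ≤ VV (zb A N) / L * ((1 + ε) * (H * (VV (za A N))⁻¹)) := mul_le_mul_of_nonneg_left c1 (by positivity)
        _ = VV (zb A N) / VV (za A N) * ((1 + ε) * (H / L)) := c2
        _ ≤ _ := mul_le_mul_of_nonneg_right hU.le (by positivity)
    have g6 : (1 - ε) * ((1 - ε) * (H / L)) ≤ Mw A H n := by
      have c1 : (1 - ε) * (H * (VV (zb A N))⁻¹) ≤ WS (Rq (zb A N)) 0 H n := by linarith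
      have c2 : VV (za A N) / Real.log (4 * N) * ((1 - ε) * (H * (VV (zb A N))⁻¹)) =
          ((VV (zb A N) / VV (za A N))⁻¹ * (Real.log (4 * (N : ℝ)) / L)⁻¹) * ((1 - ε) * (H / L)) := by
        field_simp
      calc (1 - ε) * ((1 - ε) * (H / L)) ≤ ((VV (zb A N) / VV (za A N))⁻¹ * (Real.log (4 * (N : ℝ)) / L)⁻¹) * ((1 - ε) * (H / L)) :=
            mul_le_mul_of_nonneg_right hL'.le (mul_nonneg (by linarith) hHL0)
        _ = VV (za A N) / Real.log (4 * N) * ((1 - ε) * (H * (VV (zb A N))⁻¹)) := c2.symm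
        _ ≤ VV (za A N) / Real.log (4 * N) * WS (Rq (zb A N)) 0 H n := mul_le_mul_of_nonneg_left c1 (by positivity)
        _ ≤ _ := g4
    have g7 : ε * (H / L) ≤ δ / 4 := (mul_le_mul_of_nonneg_left hHL hε0.le).trans hεl
    have g8 : ε * (ε * (H / L)) ≤ 1 / 2 * (ε * (H / L)) := mul_le_mul_of_nonneg_right hε1 (by positivity)
    have g9 : |Mw A H n - H / L| ≤ δ := by
      rw [abs_le]
      constructor <;> nlinarith
    linarith [hn.2]
  have hcard := (card_le_card hsub).trans (card_union_le _ _)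
  have hcard' : (((Ioc N (2 * N)).filter (fun n => δ < |Mw A H n - H / L|)).card : ℝ) ≤
      (((Ioc N (2 * N)).filter (fun n => ε * (H * PP (za A N) 0) < |WS (Rq (za A N)) 0 H n - H * PP (za A N) 0|)).card : ℝ) +
      (((Ioc N (2 * N)).filter (fun n => ε * (H * PP (zb A N) 0) < |WS (Rq (zb A N)) 0 H n - H * PP (zb A N) 0|)).card : ℝ) := by
    exact_mod_cast hcard
  have h8 : 2 * ((N : ℝ) / L ^ (K + 1)) ≤ N / L ^ K := by
    rw [pow_succ, ← mul_div_assoc, div_le_div_iff₀ (by positivity) (by positivity)]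
    have : 2 * (N : ℝ) * L ^ K ≤ L * N * L ^ K := by
      apply mul_le_mul_of_nonneg_right _ (by positivity)
      exact mul_le_mul_of_nonneg_right (by linarith) hN0.le
    linarith
  linarith

/-- **most windows have the expected mean**, also very short ones -/
theorem few_H {A : ℝ} (hA : 0 < A) (lam : ℝ) (hl : 0 < lam) (δ : ℝ) (hδ : 0 < δ) (K : ℕ) :
    ∀ᶠ N : ℕ in atTop, ∀ H : ℕ, (H : ℝ) ≤ lam * Real.log N →
      (((Ioc N (2 * N)).filter (fun n => δ < |Mw A H n - H / Real.log N|)).card : ℝ) ≤ N / Real.log N ^ K := by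
  classical
  obtain ⟨D, hD⟩ : ∃ D : ℕ, D = ⌈4 / δ⌉₊ + 1 := ⟨_, rfl⟩
  have hD1 : 1 ≤ D := by omega
  have hDδ : 1 / (D : ℝ) ≤ δ / 4 := by
    have h1 : 4 / δ ≤ D := by
      have := Nat.le_ceil (4 / δ)
      rw [hD]
      push_cast
      linarith
    have hD0 : (0 : ℝ) < D := by exact_mod_cast hD1
    rw [div_le_iff₀ hδ] at h1
    rw [div_le_iff₀ hD0]
    linarith
  filter_upwards [few_long hA D hD1 (lam + 1) (by linarith) (δ / 2) (by positivity) K, few_long hA D hD1 1 one_pos (δ / 2) (by positivity) K,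
    tlog.eventually_ge_atTop (4 / δ + 2 * D + 2)] with N h1 h2 h3 H hH
  obtain ⟨L, hLL⟩ : ∃ L, L = Real.log (N : ℝ) := ⟨_, rfl⟩
  rw [← hLL] at h1 h2 h3 hH ⊢
  have hD0 : (1 : ℝ) ≤ D := by exact_mod_cast hD1
  have h4δ : 0 < 4 / δ := by positivity
  have hL0 : 0 < L := by linarith
  rcases le_or_gt L (D * H) with h4 | h4
  · refine le_trans ?_ (h1 H h4 (by nlinarith))
    have hsub : (Ioc N (2 * N)).filter (fun n => δ < |Mw A H n - H / L|) ⊆ (Ioc N (2 * N)).filter (fun n => δ / 2 < |Mw A H n - H / L|) := by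
      intro n hn
      rw [mem_filter] at hn ⊢
      exact ⟨hn.1, by linarith [hn.2]⟩
    exact_mod_cast card_le_card hsub
  · obtain ⟨H', hH'⟩ : ∃ H', H' = ⌈L / D⌉₊ := ⟨_, rfl⟩
    have b1 : L / D ≤ H' := by rw [hH']; exact Nat.le_ceil _
    have b2 : (H' : ℝ) < L / D + 1 := by rw [hH']; exact Nat.ceil_lt_add_one (by positivity)
    have b3 : L ≤ D * H' := by
      rw [div_le_iff₀ (by linarith)] at b1
      linarith
    have b4 : H ≤ H' := by
      have : (H : ℝ) < L / D := by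
        rw [lt_div_iff₀ (by linarith)]
        linarith
      have : (H : ℝ) < H' := by linarith
      exact_mod_cast this.le
    have hDL : L / D + 1 ≤ L := by
      rcases Nat.lt_or_ge D 2 with h5 | h5
      · exfalso
        have h6 : D = 1 := by omega
        have h7 : 0 < ⌈4 / δ⌉₊ := Nat.ceil_pos.2 h4δ
        omega
      · have h6 : (2 : ℝ) ≤ D := by exact_mod_cast h5
        have h7 : L / D ≤ L / 2 := div_le_div_of_nonneg_left hL0.le (by norm_num) h6
        linarith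
    have b5 : (H' : ℝ) ≤ 1 * L := by linarith
    refine le_trans ?_ (h2 H' b3 b5)
    have hsub : (Ioc N (2 * N)).filter (fun n => δ < |Mw A H n - H / L|) ⊆ (Ioc N (2 * N)).filter (fun n => δ / 2 < |Mw A H' n - H' / L|) := by
      intro n hn
      rw [mem_filter] at hn ⊢
      refine ⟨hn.1, ?_⟩
      by_contra hcon
      push Not at hcon
      have c1 := (abs_le.1 hcon).2
      have c2 : Mw A H n ≤ Mw A H' n := by
        unfold Mw
        apply sum_le_sum_of_subset_of_nonneg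
        · intro i hi
          rw [mem_Icc] at hi ⊢
          omega
        · intro i _ _
          exact pr_nonneg A _
      have c3 : (H' : ℝ) / L ≤ δ / 4 + δ / 4 := by
        rw [div_le_iff₀ hL0]
        have d1 : L / D ≤ δ / 4 * L := by
          have : L * (1 / D) ≤ L * (δ / 4) := mul_le_mul_of_nonneg_left hDδ hL0.le
          rw [mul_one_div] at this
          linarith
        have d2 : 1 ≤ δ / 4 * L := by
          have : δ / 4 * (4 / δ) ≤ δ / 4 * L := mul_le_mul_of_nonneg_left (by linarith) (by positivity)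
          have e : δ / 4 * (4 / δ) = 1 := by field_simp
          linarith
        linarith
      have c4 : (H : ℝ) / L ≤ H' / L := div_le_div_of_nonneg_right (by exact_mod_cast b4) hL0.le
      have c5 : 0 ≤ (H : ℝ) / L := by positivity
      have c6 := Mw_nonneg A H n
      have c7 : |Mw A H n - H / L| ≤ δ := by
        rw [abs_le]
        constructor <;> linarith
      linarith [hn.2]
    exact_mod_cast card_le_card hsub

/-- the mean number of the pairs `r`, `r + h` with an empty window of length `H` after `r` -/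
noncomputable def GM (A : ℝ) (N h H : ℕ) : ℝ := ∑ r ∈ Ioc N (2 * N), pr A r * pr A (r + h) * ∏ a ∈ Icc 1 H, (1 - pr A (r + a))

/-- **the mean** -/
theorem GM_est {A : ℝ} (hA : 0 < A) (σ : ℝ) (hσ : 0 < σ) (hSG : Tendsto SG atTop (𝓝 σ)) (B : ℕ) (lam : ℝ) (hl : 0 < lam) (ε : ℝ) (hε : 0 < ε) :
    ∀ᶠ N : ℕ in atTop, ∀ h H : ℕ, 1 ≤ h → 2 ∣ h → (h : ℝ) ≤ Real.log N ^ B → (H : ℝ) ≤ lam * Real.log N →
      |GM A N h H - σ * FP h * Real.exp (-(H / Real.log N)) * (N / Real.log N ^ 2)| ≤ ε * (σ * FP h * (N / Real.log N ^ 2)) := by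
  classical
  obtain ⟨δ, hδ⟩ : ∃ δ, δ = min (ε / 8) (1 / 8) := ⟨_, rfl⟩
  have hδ0 : 0 < δ := by rw [hδ]; exact lt_min (by positivity) (by norm_num)
  have hδε : δ ≤ ε / 8 := by rw [hδ]; exact min_le_left _ _
  have hδ1 : δ ≤ 1 / 8 := by rw [hδ]; exact min_le_right _ _
  obtain ⟨w, hw⟩ : ∃ w, w = min (1 / 2) (δ / (lam + δ)) := ⟨_, rfl⟩
  have hw0 : 0 < w := by rw [hw]; exact lt_min (by norm_num) (by positivity)
  have hw1 : w ≤ 1 / 2 := by rw [hw]; exact min_le_left _ _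
  have hwl : w * (lam + δ) ≤ δ := by
    have : w ≤ δ / (lam + δ) := by rw [hw]; exact min_le_right _ _
    rwa [le_div_iff₀ (by positivity)] at this
  filter_upwards [few_H hA lam hl δ hδ0 3, pair_sum hA σ hσ hSG B δ hδ0, eventually_forall_ge_atTop.2 (pr_small A hA w hw0),
    tlog.eventually_ge_atTop (1 / (δ * σ) + 1), eventually_ge_atTop 1] with N h1 h2 h3 h4 h4' h H hh1 hh2 hhB hH
  obtain ⟨L, hLL⟩ : ∃ L, L = Real.log (N : ℝ) := ⟨_, rfl⟩
  have k1 := h1 H hH
  have k2 := h2 h hh1 hh2 hhB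
  rw [← hLL] at k1 k2 h4 hH ⊢
  have h5 : 0 < 1 / (δ * σ) := by positivity
  have hL0 : 0 < L := by linarith
  have hN0 : (0 : ℝ) < N := by exact_mod_cast h4'
  obtain ⟨F, hF⟩ : ∃ F, F = σ * FP h := ⟨_, rfl⟩
  have hFσ : σ ≤ F := by rw [hF]; nlinarith [FP_ge h]
  have hF0 : 0 < F := by linarith
  rw [← hF] at k2 ⊢
  obtain ⟨E, hE⟩ : ∃ E, E = Real.exp (-((H : ℝ) / L)) := ⟨_, rfl⟩
  have hHL0 : 0 ≤ (H : ℝ) / L := by positivity
  have hE0 : 0 < E := by rw [hE]; exact Real.exp_pos _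
  have hE1 : E ≤ 1 := by rw [hE]; exact Real.exp_le_one_iff.2 (by linarith)
  have hHlam : (H : ℝ) / L ≤ lam := by rw [div_le_iff₀ hL0]; exact hH
  rw [← hE]
  obtain ⟨X, hX⟩ : ∃ X, X = ∑ r ∈ Ioc N (2 * N), pr A r * pr A (r + h) := ⟨_, rfl⟩
  rw [← hX] at k2
  -- comparison term by term
  have hterm : ∀ r ∈ Ioc N (2 * N), |pr A r * pr A (r + h) * ∏ a ∈ Icc 1 H, (1 - pr A (r + a)) - E * (pr A r * pr A (r + h))| ≤
      2 * δ * (pr A r * pr A (r + h)) + if δ < |Mw A H r - H / L| then 1 else 0 := by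
    intro r hr
    rw [mem_Ioc] at hr
    have q0 : 0 ≤ pr A r * pr A (r + h) := mul_nonneg (pr_nonneg A _) (pr_nonneg A _)
    have q1 : pr A r * pr A (r + h) ≤ 1 := mul_le_one₀ (pr_le_one A _) (pr_nonneg A _) (pr_le_one A _)
    have e1 : pr A r * pr A (r + h) * ∏ a ∈ Icc 1 H, (1 - pr A (r + a)) - E * (pr A r * pr A (r + h)) =
        (pr A r * pr A (r + h)) * (∏ a ∈ Icc 1 H, (1 - pr A (r + a)) - E) := by ring
    rw [e1, abs_mul, abs_of_nonneg q0]
    split_ifs with h6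
    · have P0 : 0 ≤ ∏ a ∈ Icc 1 H, (1 - pr A (r + a)) := prod_nonneg fun a _ => by linarith [pr_le_one A (r + a)]
      have P1 : ∏ a ∈ Icc 1 H, (1 - pr A (r + a)) ≤ 1 := Finset.prod_le_one (fun a _ => by linarith [pr_le_one A (r + a)]) (fun a _ => by linarith [pr_nonneg A (r + a)])
      have b1 : |∏ a ∈ Icc 1 H, (1 - pr A (r + a)) - E| ≤ 1 := by
        rw [abs_le]
        constructor <;> linarith
      calc pr A r * pr A (r + h) * |∏ a ∈ Icc 1 H, (1 - pr A (r + a)) - E| ≤ 1 * 1 := mul_le_mul q1 b1 (abs_nonneg _) (by norm_num)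
        _ ≤ _ := by
            have : 0 ≤ 2 * δ * (pr A r * pr A (r + h)) := by positivity
            linarith
    · push Not at h6
      rw [add_zero, mul_comm (2 * δ)]
      apply mul_le_mul_of_nonneg_left _ q0
      have b1 := prod_exp (Icc 1 H) (fun a => pr A (r + a)) w (fun a _ => pr_nonneg A _) (fun a _ => h3 (r + a) (by omega)) hw1
      have b2 := exp_lip (Mw A H r) (H / L) (Mw_nonneg A H r) hHL0
      have b3 : ∑ a ∈ Icc 1 H, pr A (r + a) = Mw A H r := rfl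
      rw [b3] at b1
      have b4 : w * Mw A H r ≤ w * (lam + δ) := by
        apply mul_le_mul_of_nonneg_left _ hw0.le
        linarith [le_abs_self (Mw A H r - H / L)]
      rw [hE]
      calc |∏ a ∈ Icc 1 H, (1 - pr A (r + a)) - Real.exp (-((H : ℝ) / L))| ≤ |∏ a ∈ Icc 1 H, (1 - pr A (r + a)) - Real.exp (-(Mw A H r))| +
            |Real.exp (-(Mw A H r)) - Real.exp (-((H : ℝ) / L))| := abs_sub_le _ _ _
        _ ≤ w * Mw A H r + |Mw A H r - H / L| := add_le_add b1 b2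
        _ ≤ 2 * δ := by linarith
  have hsum : |GM A N h H - E * X| ≤ 2 * δ * X + N / L ^ 3 := by
    rw [hX, mul_sum]
    unfold GM
    rw [← sum_sub_distrib]
    refine (abs_sum_le_sum_abs _ _).trans ((sum_le_sum hterm).trans ?_)
    rw [sum_add_distrib, ← mul_sum, ← sum_filter, sum_const, nsmul_eq_mul, mul_one]
    linarith
  have hX2 := abs_le.1 k2
  have hN3 : (N : ℝ) / L ^ 3 ≤ δ * (F * (N / L ^ 2)) := by
    have c1 : 1 ≤ δ * σ * L := by
      have : δ * σ * (1 / (δ * σ)) ≤ δ * σ * L := mul_le_mul_of_nonneg_left (by linarith) (by positivity)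
      have e : δ * σ * (1 / (δ * σ)) = 1 := by field_simp
      linarith
    have c2 : 1 ≤ δ * F * L := by
      refine c1.trans ?_
      apply mul_le_mul_of_nonneg_right _ hL0.le
      exact mul_le_mul_of_nonneg_left hFσ hδ0.le
    have e1 : δ * (F * ((N : ℝ) / L ^ 2)) = (δ * F * L) * (N / L ^ 3) := by field_simp
    rw [e1]
    exact le_mul_of_one_le_left (by positivity) c2
  have hE2 : |E * X - F * E * (N / L ^ 2)| ≤ δ * (F * (N / L ^ 2)) := by
    have e1 : E * X - F * E * (N / L ^ 2) = E * (X - F * (N / L ^ 2)) := by ring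
    rw [e1, abs_mul, abs_of_pos hE0]
    calc E * |X - F * (N / L ^ 2)| ≤ 1 * |X - F * (N / L ^ 2)| := mul_le_mul_of_nonneg_right hE1 (abs_nonneg _)
      _ ≤ _ := by rw [one_mul]; exact k2
  have hY0 : 0 < F * ((N : ℝ) / L ^ 2) := by positivity
  calc |GM A N h H - F * E * (N / L ^ 2)| ≤ |GM A N h H - E * X| + |E * X - F * E * (N / L ^ 2)| := abs_sub_le _ _ _
    _ ≤ (2 * δ * X + N / L ^ 3) + δ * (F * (N / L ^ 2)) := add_le_add hsum hE2
    _ ≤ ε * (F * (N / L ^ 2)) := by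
        have c1 : 2 * δ * X ≤ 2 * δ * ((1 + δ) * (F * (N / L ^ 2))) := mul_le_mul_of_nonneg_left (by linarith [hX2.2]) (by positivity)
        have c2 : δ * δ ≤ 1 / 8 * δ := mul_le_mul_of_nonneg_right hδ1 hδ0.le
        nlinarith [mul_le_mul_of_nonneg_right c2 hY0.le, mul_le_mul_of_nonneg_right hδε hY0.le]

end Pool.Agent.T2H62.MK
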