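import Pool.Agent.T2H62.MK.C

set_option autoImplicit false

/-! # Pairs with an empty window between them: almost surely -/

namespace Pool.Agent.T2H62.MK

open Finset Filter Topology MeasureTheory ProbabilityTheory
open Pool.Agent.T2H62.MD
open Pool.Agent.T2H53.GW
open Pool.Agent.T2H62.MM (tlog)
open Pool.Agent.T2H62.ME (indep_compl)

variable {Ω : Type*} [MeasurableSpace Ω] {μ : Measure Ω} [IsProbabilityMeasure μ] {S : ℕ → Set Ω}

/-- many counts at once -/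
theorem dev_all (hm : ∀ n, MeasurableSet (S n)) (hi : iIndepSet S μ) (B : ℕ) (TT : ℕ → Finset (Finset ℕ))
    (hc : ∀ᶠ N : ℕ in atTop, ((TT N).card : ℝ) ≤ Real.log N ^ B)
    (hs : ∀ᶠ N : ℕ in atTop, ∀ T ∈ TT N, ∃ y : ℕ, (y : ℝ) ≤ Real.log N ^ B ∧ T ⊆ Icc 1 y) :
    ∀ᵐ ω ∂μ, ∀ᶠ N : ℕ in atTop, ∀ T ∈ TT N, |cnt (Ioc (N - 1) (2 * N - 1)) (Fh (fun n => (S n)ᶜ) T) ω -
      ∑ n ∈ Ioc (N - 1) (2 * N - 1), μ.real (Fh (fun n => (S n)ᶜ) T n)| ≤ (N : ℝ) ^ (3 / 4 : ℝ) := by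
  classical
  obtain ⟨E, hE⟩ : ∃ E : ℕ → Finset ℕ → Set Ω, E = fun (N : ℕ) (T : Finset ℕ) =>
      {ω | (N : ℝ) ^ (3 / 4 : ℝ) < |cnt (Ioc (N - 1) (2 * N - 1)) (Fh (fun n => (S n)ᶜ) T) ω -
      ∑ n ∈ Ioc (N - 1) (2 * N - 1), μ.real (Fh (fun n => (S n)ᶜ) T n)|} := ⟨_, rfl⟩
  obtain ⟨Bd, hBd⟩ : ∃ Bd : ℕ → Set Ω, Bd = fun N : ℕ => ⋃ T ∈ TT N, E N T := ⟨_, rfl⟩
  have hprob : ∀ᶠ N : ℕ in atTop, μ.real (Bd N) ≤ 1 / (N : ℝ) ^ 2 := by
    filter_upwards [hc, hs, log_pow_small (2 * B + 1) 80 (1 / 2) (by norm_num) (by norm_num), tlog.eventually_ge_atTop 1, eventually_ge_atTop 3]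
      with N h1 h2 h3 h4 h5
    obtain ⟨L, hL⟩ : ∃ L, L = Real.log (N : ℝ) := ⟨_, rfl⟩
    rw [← hL] at h1 h2 h3 h4
    have hN0 : (0 : ℝ) < N := by exact_mod_cast (by omega : 0 < N)
    have hN1 : (1 : ℝ) ≤ N := by exact_mod_cast (by omega : 1 ≤ N)
    have hL0 : 0 < L := by linarith
    have hLB : (1 : ℝ) ≤ L ^ B := one_le_pow₀ h4
    have hNs : (N : ℝ) ^ (3 / 4 : ℝ) * (N : ℝ) ^ (3 / 4 : ℝ) = N * (N : ℝ) ^ (1 / 2 : ℝ) := by
      rw [← Real.rpow_add hN0]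
      nth_rewrite 2 [← Real.rpow_one (N : ℝ)]
      rw [← Real.rpow_add hN0]
      norm_num
    have hone : ∀ T ∈ TT N, μ.real (E N T) ≤ 4 * L ^ B / (N : ℝ) ^ 5 := by
      intro T hT
      obtain ⟨y, hy, hTy⟩ := h2 T hT
      have hy0 : (0 : ℝ) < (y : ℝ) + 1 := by positivity
      have hy1 : (y : ℝ) + 1 ≤ 2 * L ^ B := by linarith
      obtain ⟨t, ht⟩ : ∃ t : ℝ, t = (N : ℝ) ^ (3 / 4 : ℝ) / ((y : ℝ) + 1) := ⟨_, rfl⟩
      have ht0 : 0 ≤ t := by rw [ht]; positivity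
      have hN34 : (N : ℝ) ^ (3 / 4 : ℝ) ≤ N := by
        calc (N : ℝ) ^ (3 / 4 : ℝ) ≤ (N : ℝ) ^ (1 : ℝ) := Real.rpow_le_rpow_of_exponent_le hN1 (by norm_num)
          _ = N := Real.rpow_one _
      have htN : t ≤ N := by
        rw [ht]
        refine (div_le_self (by positivity) ?_).trans hN34
        have : (0 : ℝ) ≤ y := Nat.cast_nonneg _
        linarith
      have hmean : ∑ n ∈ Ioc (N - 1) (2 * N - 1), μ.real (Fh (fun n => (S n)ᶜ) T n) ≤ N := by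
        calc ∑ n ∈ Ioc (N - 1) (2 * N - 1), μ.real (Fh (fun n => (S n)ᶜ) T n) ≤ ∑ n ∈ Ioc (N - 1) (2 * N - 1), (1 : ℝ) :=
              sum_le_sum fun n _ => measureReal_le_one
          _ = N := by
              rw [sum_const, Nat.card_Ioc, nsmul_eq_mul]
              have : 2 * N - 1 - (N - 1) = N := by omega
              rw [this, mul_one]
      have h6 := dev_prob (μ := μ) (S := fun n => (S n)ᶜ) (fun n => (hm n).compl) (indep_compl hi) T y hTy (N - 1) (2 * N - 1) N t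
        hmean ht0 htN hN0
      have e1 : ((y : ℝ) + 1) * t = (N : ℝ) ^ (3 / 4 : ℝ) := by rw [ht]; field_simp
      rw [e1] at h6
      have h7 : 5 * L ≤ t ^ 2 / (4 * N) := by
        rw [ht, div_pow, div_div, le_div_iff₀ (by positivity), sq ((N : ℝ) ^ (3 / 4 : ℝ)), hNs]
        have c1 : ((y : ℝ) + 1) ^ 2 ≤ 4 * L ^ (2 * B) := by
          calc ((y : ℝ) + 1) ^ 2 ≤ (2 * L ^ B) ^ 2 := pow_le_pow_left₀ hy0.le hy1 2
            _ = 4 * L ^ (2 * B) := by rw [mul_pow, ← pow_mul, mul_comm B 2]; norm_num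
        calc 5 * L * (((y : ℝ) + 1) ^ 2 * (4 * N)) ≤ 5 * L * (4 * L ^ (2 * B) * (4 * N)) := by
              apply mul_le_mul_of_nonneg_left _ (by positivity)
              exact mul_le_mul_of_nonneg_right c1 (by positivity)
          _ = N * (80 * L ^ (2 * B + 1)) := by ring
          _ ≤ N * (N : ℝ) ^ (1 / 2 : ℝ) := mul_le_mul_of_nonneg_left h3 hN0.le
      have h8 : Real.exp (-(t ^ 2 / (4 * N))) ≤ 1 / (N : ℝ) ^ 5 := by
        calc Real.exp (-(t ^ 2 / (4 * N))) ≤ Real.exp (-(5 * L)) := Real.exp_le_exp.2 (by linarith)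
          _ = 1 / (N : ℝ) ^ 5 := by
              rw [hL, Real.exp_neg, one_div, mul_comm, Real.exp_mul, Real.exp_log hN0]
              norm_num
      rw [hE]
      calc _ ≤ ((y : ℝ) + 1) * (2 * Real.exp (-(t ^ 2 / (4 * N)))) := h6
        _ ≤ (2 * L ^ B) * (2 * (1 / (N : ℝ) ^ 5)) := by
            apply mul_le_mul hy1 _ (by positivity) (by positivity)
            linarith
        _ = 4 * L ^ B / (N : ℝ) ^ 5 := by ring
    rw [hBd]
    refine (measureReal_biUnion_finset_le _ _).trans ((sum_le_sum hone).trans ?_)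
    rw [sum_const, nsmul_eq_mul]
    have c1 : 4 * L ^ (2 * B) ≤ N := by
      have d1 : 4 * L ^ (2 * B) ≤ 80 * L ^ (2 * B + 1) := by
        rw [pow_succ]
        have : (1 : ℝ) ≤ L ^ (2 * B) := one_le_pow₀ h4
        nlinarith
      calc 4 * L ^ (2 * B) ≤ (N : ℝ) ^ (1 / 2 : ℝ) := d1.trans h3
        _ ≤ (N : ℝ) ^ (1 : ℝ) := Real.rpow_le_rpow_of_exponent_le hN1 (by norm_num)
        _ = N := Real.rpow_one _
    calc ((TT N).card : ℝ) * (4 * L ^ B / (N : ℝ) ^ 5) ≤ L ^ B * (4 * L ^ B / (N : ℝ) ^ 5) := mul_le_mul_of_nonneg_right h1 (by positivity)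
      _ = (4 * L ^ (2 * B)) / (N : ℝ) ^ 5 := by ring
      _ ≤ N / (N : ℝ) ^ 5 := div_le_div_of_nonneg_right c1 (by positivity)
      _ = 1 / (N : ℝ) ^ 4 := by field_simp
      _ ≤ 1 / (N : ℝ) ^ 2 := by
          apply div_le_div_of_nonneg_left (by norm_num) (by positivity)
          exact pow_le_pow_right₀ hN1 (by norm_num)
  obtain ⟨n₀, hn₀⟩ := eventually_atTop.1 hprob
  have hsum : Summable (fun N : ℕ => 1 / (N : ℝ) ^ 2) := Real.summable_one_div_nat_pow.2 (by norm_num)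
  have h2 := bc (μ := μ) Bd n₀ _ hsum (fun n hn => hn₀ n hn)
  filter_upwards [h2] with ω hω
  filter_upwards [hω] with N hN T hT
  rw [hBd, hE] at hN
  simp only [Set.mem_iUnion, not_exists] at hN
  by_contra h5
  push Not at h5
  exact hN T hT h5

/-- the number of the pairs `r`, `r + h` with an empty window of length `H` after `r` -/
noncomputable def CP (S : ℕ → Set Ω) (ω : Ω) (N h H : ℕ) : ℕ := by
  classical exact ((Ioc N (2 * N)).filter (fun r => ω ∈ S r ∧ ω ∈ S (r + h) ∧ ∀ a ∈ Icc 1 H, ω ∉ S (r + a))).card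

/-- the four sets -/
def four (h H : ℕ) : Finset (Finset ℕ) :=
  {Icc 2 (H + 1), insert 1 (Icc 2 (H + 1)), insert (h + 1) (Icc 2 (H + 1)), insert 1 (insert (h + 1) (Icc 2 (H + 1)))}

theorem cnt_four (ω : Ω) (N h H : ℕ) (hN : 1 ≤ N) (hH : H < h) : (CP S ω N h H : ℝ) =
    cnt (Ioc (N - 1) (2 * N - 1)) (Fh (fun n => (S n)ᶜ) (Icc 2 (H + 1))) ω -
    cnt (Ioc (N - 1) (2 * N - 1)) (Fh (fun n => (S n)ᶜ) (insert 1 (Icc 2 (H + 1)))) ω -
    cnt (Ioc (N - 1) (2 * N - 1)) (Fh (fun n => (S n)ᶜ) (insert (h + 1) (Icc 2 (H + 1)))) ω +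
    cnt (Ioc (N - 1) (2 * N - 1)) (Fh (fun n => (S n)ᶜ) (insert 1 (insert (h + 1) (Icc 2 (H + 1))))) ω := by
  classical
  have e0 : (CP S ω N h H : ℝ) = ∑ r ∈ Ioc N (2 * N), if (ω ∈ S r ∧ ω ∈ S (r + h) ∧ ∀ a ∈ Icc 1 H, ω ∉ S (r + a)) then (1 : ℝ) else 0 := by
    unfold CP
    rw [← sum_filter, sum_const, nsmul_eq_mul, mul_one]
  have e1 : ∑ r ∈ Ioc N (2 * N), (if (ω ∈ S r ∧ ω ∈ S (r + h) ∧ ∀ a ∈ Icc 1 H, ω ∉ S (r + a)) then (1 : ℝ) else 0) =
      ∑ n ∈ Ioc (N - 1) (2 * N - 1), if (ω ∈ S (n + 1) ∧ ω ∈ S (n + 1 + h) ∧ ∀ a ∈ Icc 1 H, ω ∉ S (n + 1 + a)) then (1 : ℝ) else 0 := by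
    rw [Pool.Agent.T2H62.ME.shift_sum (fun r => if (ω ∈ S r ∧ ω ∈ S (r + h) ∧ ∀ a ∈ Icc 1 H, ω ∉ S (r + a)) then (1 : ℝ) else 0)]
    have h1 : N - 1 + 1 = N := by omega
    have h2 : 2 * N - 1 + 1 = 2 * N := by omega
    rw [h1, h2]
  have hc : ∀ T : Finset ℕ, cnt (Ioc (N - 1) (2 * N - 1)) (Fh (fun n => (S n)ᶜ) T) ω =
      ∑ n ∈ Ioc (N - 1) (2 * N - 1), if (∀ t ∈ T, ω ∉ S (n + t)) then (1 : ℝ) else 0 := by
    intro T
    rw [cnt_eq, ← sum_filter, sum_const, nsmul_eq_mul, mul_one]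
    congr 2
    apply filter_congr
    intro n _
    unfold Fh
    simp only [Set.mem_iInter, Set.mem_compl_iff]
  rw [e0, e1, hc, hc, hc, hc, ← sum_sub_distrib, ← sum_sub_distrib, ← sum_add_distrib]
  refine sum_congr rfl fun n _ => ?_
  have hI : (∀ a ∈ Icc 1 H, ω ∉ S (n + 1 + a)) ↔ ∀ t ∈ Icc 2 (H + 1), ω ∉ S (n + t) := by
    constructor
    · intro h1 t ht
      rw [mem_Icc] at ht
      have := h1 (t - 1) (by rw [mem_Icc]; omega)
      have e : n + 1 + (t - 1) = n + t := by omega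
      rwa [e] at this
    · intro h1 a ha
      rw [mem_Icc] at ha
      have := h1 (a + 1) (by rw [mem_Icc]; omega)
      have e : n + (a + 1) = n + 1 + a := by ring
      rwa [e] at this
  have e2 : n + (h + 1) = n + 1 + h := by ring
  simp only [mem_insert, forall_eq_or_imp, hI, e2]
  by_cases h1 : ω ∈ S (n + 1) <;> by_cases h2 : ω ∈ S (n + 1 + h) <;> by_cases h3 : ∀ t ∈ Icc 2 (H + 1), ω ∉ S (n + t) <;>
    simp [h1, h2, h3]

theorem mean_four {A : ℝ} (hm : ∀ n, MeasurableSet (S n)) (hi : iIndepSet S μ) (hp : ∀ n, μ.real (S n) = pr A n)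
    (N h H : ℕ) (hN : 1 ≤ N) (hH : H < h) : GM A N h H =
    ∑ n ∈ Ioc (N - 1) (2 * N - 1), μ.real (Fh (fun n => (S n)ᶜ) (Icc 2 (H + 1)) n) -
    ∑ n ∈ Ioc (N - 1) (2 * N - 1), μ.real (Fh (fun n => (S n)ᶜ) (insert 1 (Icc 2 (H + 1))) n) -
    ∑ n ∈ Ioc (N - 1) (2 * N - 1), μ.real (Fh (fun n => (S n)ᶜ) (insert (h + 1) (Icc 2 (H + 1))) n) +
    ∑ n ∈ Ioc (N - 1) (2 * N - 1), μ.real (Fh (fun n => (S n)ᶜ) (insert 1 (insert (h + 1) (Icc 2 (H + 1)))) n) := by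
  classical
  have hpr : ∀ (T : Finset ℕ) (n : ℕ), μ.real (Fh (fun n => (S n)ᶜ) T n) = ∏ t ∈ T, (1 - pr A (n + t)) := by
    intro T n
    rw [prob_Fh (fun n => (hm n).compl) (indep_compl hi)]
    refine prod_congr rfl fun t _ => ?_
    rw [probReal_compl_eq_one_sub (hm _), hp]
  have e1 : GM A N h H = ∑ n ∈ Ioc (N - 1) (2 * N - 1), pr A (n + 1) * pr A (n + 1 + h) * ∏ a ∈ Icc 1 H, (1 - pr A (n + 1 + a)) := by
    unfold GM
    rw [Pool.Agent.T2H62.ME.shift_sum (fun r => pr A r * pr A (r + h) * ∏ a ∈ Icc 1 H, (1 - pr A (r + a)))]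
    have h1 : N - 1 + 1 = N := by omega
    have h2 : 2 * N - 1 + 1 = 2 * N := by omega
    rw [h1, h2]
  rw [e1, ← sum_sub_distrib, ← sum_sub_distrib, ← sum_add_distrib]
  refine sum_congr rfl fun n _ => ?_
  rw [hpr, hpr, hpr, hpr]
  have h1 : (1 : ℕ) ∉ Icc 2 (H + 1) := by rw [mem_Icc]; omega
  have h2 : h + 1 ∉ Icc 2 (H + 1) := by rw [mem_Icc]; omega
  have h3 : (1 : ℕ) ∉ insert (h + 1) (Icc 2 (H + 1)) := by
    rw [mem_insert]
    push Not
    exact ⟨by omega, h1⟩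
  rw [prod_insert h1, prod_insert h2, prod_insert h3, prod_insert h2]
  have h4 : ∏ a ∈ Icc 1 H, (1 - pr A (n + 1 + a)) = ∏ t ∈ Icc 2 (H + 1), (1 - pr A (n + t)) := by
    have h5 : Icc 2 (H + 1) = (Icc 1 H).image (fun a => a + 1) := by
      rw [Finset.image_add_right_Icc]
    rw [h5, prod_image (fun a _ b _ hab => by simpa using hab)]
    refine prod_congr rfl fun a _ => ?_
    have e : n + (a + 1) = n + 1 + a := by ring
    rw [e]
  rw [h4]
  have e2 : n + (h + 1) = n + 1 + h := by ring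
  rw [e2]
  ring

/-- **almost surely, the number of the pairs** -/
theorem cnt_pairs {A : ℝ} (hm : ∀ n, MeasurableSet (S n)) (hi : iIndepSet S μ) (hp : ∀ n, μ.real (S n) = pr A n) (B : ℕ) :
    ∀ᵐ ω ∂μ, ∀ᶠ N : ℕ in atTop, ∀ h H : ℕ, (h : ℝ) ≤ Real.log N ^ B → H < h →
      |(CP S ω N h H : ℝ) - GM A N h H| ≤ 4 * (N : ℝ) ^ (3 / 4 : ℝ) := by
  classical
  obtain ⟨TT, hTT⟩ : ∃ TT : ℕ → Finset (Finset ℕ), ∀ N : ℕ, TT N =
      ((range (⌊Real.log (N : ℝ) ^ B⌋₊ + 1)) ×ˢ (range (⌊Real.log (N : ℝ) ^ B⌋₊ + 1))).biUnion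
        (fun x => if x.2 < x.1 then four x.1 x.2 else ∅) := ⟨_, fun _ => rfl⟩
  have h1 := dev_all (μ := μ) hm hi (2 * B + 1) TT (by
    filter_upwards [tlog.eventually_ge_atTop 16] with N h2
    obtain ⟨L, hL⟩ : ∃ L, L = Real.log (N : ℝ) := ⟨_, rfl⟩
    rw [hTT N, ← hL]
    rw [← hL] at h2
    have hLB : (1 : ℝ) ≤ L ^ B := one_le_pow₀ (by linarith)
    have hL0 : 0 < L := by linarith
    have c1 : (((range (⌊L ^ B⌋₊ + 1)) ×ˢ (range (⌊L ^ B⌋₊ + 1))).biUnion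
        (fun x => if x.2 < x.1 then four x.1 x.2 else ∅)).card ≤ (⌊L ^ B⌋₊ + 1) * (⌊L ^ B⌋₊ + 1) * 4 := by
      refine card_biUnion_le.trans ?_
      refine (sum_le_card_nsmul _ _ 4 ?_).trans ?_
      · intro x _
        split_ifs
        · unfold four
          exact card_le_four
        · simp
      · rw [card_product, card_range, smul_eq_mul]
    have c2 : ((⌊L ^ B⌋₊ : ℕ) : ℝ) + 1 ≤ 2 * L ^ B := by
      have := Nat.floor_le (show 0 ≤ L ^ B by positivity)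
      linarith
    have c3 : (((⌊L ^ B⌋₊ + 1) * (⌊L ^ B⌋₊ + 1) * 4 : ℕ) : ℝ) ≤ L ^ (2 * B + 1) := by
      push_cast
      calc ((⌊L ^ B⌋₊ : ℝ) + 1) * ((⌊L ^ B⌋₊ : ℝ) + 1) * 4 ≤ (2 * L ^ B) * (2 * L ^ B) * 4 := by
            apply mul_le_mul_of_nonneg_right _ (by norm_num)
            exact mul_le_mul c2 c2 (by positivity) (by positivity)
        _ = 16 * L ^ (2 * B) := by ring
        _ ≤ L * L ^ (2 * B) := mul_le_mul_of_nonneg_right h2 (by positivity)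
        _ = L ^ (2 * B + 1) := by ring
    refine le_trans ?_ c3
    exact_mod_cast c1) (by
    filter_upwards [tlog.eventually_ge_atTop 2] with N h2 T hT
    obtain ⟨L, hL⟩ : ∃ L, L = Real.log (N : ℝ) := ⟨_, rfl⟩
    rw [hTT N, ← hL] at hT
    rw [← hL] at h2 ⊢
    have hLB : (1 : ℝ) ≤ L ^ B := one_le_pow₀ (by linarith)
    rw [mem_biUnion] at hT
    obtain ⟨x, hx, hT⟩ := hT
    rw [mem_product, mem_range, mem_range] at hx
    refine ⟨x.1 + 1, ?_, ?_⟩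
    · push_cast
      have c1 : (x.1 : ℝ) ≤ L ^ B := by
        have : (x.1 : ℝ) ≤ (⌊L ^ B⌋₊ : ℕ) := by exact_mod_cast (by omega : x.1 ≤ ⌊L ^ B⌋₊)
        exact this.trans (Nat.floor_le (by positivity))
      calc (x.1 : ℝ) + 1 ≤ 2 * L ^ B := by linarith
        _ ≤ L ^ (B + 1) * L ^ B := by
            apply mul_le_mul_of_nonneg_right _ (by positivity)
            calc (2 : ℝ) ≤ L * 1 := by linarith
              _ ≤ L * L ^ B := mul_le_mul_of_nonneg_left hLB (by linarith)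
              _ = L ^ (B + 1) := by ring
        _ = L ^ (2 * B + 1) := by ring
    · split_ifs at hT with h3
      · unfold four at hT
        simp only [mem_insert, mem_singleton] at hT
        intro t ht
        rw [mem_Icc]
        rcases hT with rfl | rfl | rfl | rfl
        · rw [mem_Icc] at ht
          omega
        · rw [mem_insert, mem_Icc] at ht
          omega
        · rw [mem_insert, mem_Icc] at ht
          omega
        · rw [mem_insert, mem_insert, mem_Icc] at ht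
          omega
      · exact absurd hT (notMem_empty T))
  filter_upwards [h1] with ω hω
  filter_upwards [hω, eventually_ge_atTop 1] with N hN hN1 h H hh hH
  have hmem : ∀ T ∈ four h H, T ∈ TT N := by
    intro T hT
    rw [hTT N, mem_biUnion]
    refine ⟨(h, H), ?_, ?_⟩
    · rw [mem_product, mem_range, mem_range]
      have := Nat.le_floor hh
      constructor
      · show h < _
        omega
      · show H < _
        omega
    · show T ∈ if H < h then four h H else ∅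
      rw [if_pos hH]
      exact hT
  have g1 := abs_le.1 (hN _ (hmem (Icc 2 (H + 1)) (by unfold four; simp)))
  have g2 := abs_le.1 (hN _ (hmem (insert 1 (Icc 2 (H + 1))) (by unfold four; simp)))
  have g3 := abs_le.1 (hN _ (hmem (insert (h + 1) (Icc 2 (H + 1))) (by unfold four; simp)))
  have g4 := abs_le.1 (hN _ (hmem (insert 1 (insert (h + 1) (Icc 2 (H + 1)))) (by unfold four; simp)))
  rw [cnt_four ω N h H hN1 hH, mean_four hm hi hp N h H hN1 hH, abs_le]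
  constructor <;> linarith [g1.1, g1.2, g2.1, g2.2, g3.1, g3.2, g4.1, g4.2]

end Pool.Agent.T2H62.MK
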