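import Pool.Agent.T2H62.MK.D

set_option autoImplicit false

/-! # The largest singular series -/

namespace Pool.Agent.T2H62.MK

open Finset Filter Topology MeasureTheory ProbabilityTheory
open Pool.Agent.T2H62.MD
open Pool.Agent.T2H53.GW
open Pool.Agent.T2H62.MM (tlog)

theorem FL_bd2 (z h : ℕ) (hz : 3 ≤ z) (hh : 1 ≤ h) : FL z h ≤ Real.exp (Real.log h / (Real.log z * (z - 2))) := by
  have hz3 : (3 : ℝ) ≤ z := by exact_mod_cast hz
  have hlz : 0 < Real.log (z : ℝ) := Real.log_pos (by linarith)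
  have hmem : ∀ p ∈ h.primeFactors.filter (fun p => z < p), p.Prime ∧ z < p ∧ p ∣ h := by
    intro p hp
    rw [mem_filter, Nat.mem_primeFactors] at hp
    exact ⟨hp.1.1, hp.2, hp.1.2.1⟩
  obtain ⟨P, hP⟩ : ∃ P, P = h.primeFactors.filter (fun p => z < p) := ⟨_, rfl⟩
  rw [← hP] at hmem
  have hcard : (P.card : ℝ) * Real.log z ≤ Real.log h := by
    have h1 : ∏ p ∈ P, p ∣ h := by
      apply Finset.prod_primes_dvd
      · intro p hp
        exact (hmem p hp).1.prime
      · intro p hp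
        exact (hmem p hp).2.2
    have h2 : ∏ p ∈ P, p ≤ h := Nat.le_of_dvd (by omega) h1
    have h3 : z ^ P.card ≤ ∏ p ∈ P, p := by
      rw [← prod_const]
      exact prod_le_prod' fun p hp => (hmem p hp).2.1.le
    have h4 : (z : ℝ) ^ P.card ≤ h := by exact_mod_cast h3.trans h2
    have h5 := Real.log_le_log (by positivity) h4
    rwa [Real.log_pow] at h5
  unfold FL
  rw [← hP]
  calc ∏ p ∈ P, ((p : ℝ) - 1) / (p - 2) ≤ ∏ p ∈ P, Real.exp (1 / ((z : ℝ) - 2)) := by
        apply Finset.prod_le_prod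
        · intro p hp
          have := fac_ge p (hmem p hp).1 (by have := (hmem p hp).2.1; omega)
          linarith
        · intro p hp
          have h1 : (z : ℝ) ≤ p := by exact_mod_cast (hmem p hp).2.1.le
          have h2 : ((p : ℝ) - 1) / (p - 2) = 1 / ((p : ℝ) - 2) + 1 := by
            have : (p : ℝ) - 2 ≠ 0 := by linarith
            field_simp
            ring
          rw [h2]
          have h3 : 1 / ((p : ℝ) - 2) ≤ 1 / ((z : ℝ) - 2) := div_le_div_of_nonneg_left (by norm_num) (by linarith) (by linarith)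
          have := Real.add_one_le_exp (1 / ((z : ℝ) - 2))
          linarith
    _ = Real.exp (P.card * (1 / ((z : ℝ) - 2))) := by
        rw [prod_const, ← Real.exp_nat_mul]
    _ ≤ Real.exp (Real.log h / (Real.log z * (z - 2))) := by
        apply Real.exp_le_exp.2
        rw [mul_one_div, div_le_div_iff₀ (by linarith) (mul_pos hlz (by linarith))]
        have : 0 < (z : ℝ) - 2 := by linarith
        nlinarith

/-- the product of the primes up to `y` -/
def PR (y : ℕ) : ℕ := ∏ p ∈ PJ y, p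

theorem PR_pos (y : ℕ) : 1 ≤ PR y := Nat.pos_of_ne_zero (prod_ne_zero_iff.2 fun _ hp => (PJ_prime hp).ne_zero)

theorem PR_le (y : ℕ) : PR y ≤ 4 ^ y := by
  refine le_trans (le_of_eq ?_) (primorial_le_four_pow y)
  unfold PR primorial PJ
  refine prod_congr ?_ fun _ _ => rfl
  ext p
  rw [mem_filter, mem_filter, mem_Icc, mem_range]
  constructor
  · rintro ⟨h1, h2⟩
    exact ⟨by omega, h2⟩
  · rintro ⟨h1, h2⟩
    exact ⟨⟨h2.one_lt.le, by omega⟩, h2⟩

theorem FZ_le (y h : ℕ) (hy : 2 ≤ y) : FZ y h ≤ FP (PR y) := by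
  rw [FP_split y (PR y) hy (PR_pos y)]
  have h1 : FZ y h ≤ FZ y (PR y) := by
    unfold FZ
    have hsub : (PJ y).filter (fun p => p ∣ h ∧ p ≠ 2) ⊆ (PJ y).filter (fun p => p ∣ PR y ∧ p ≠ 2) := by
      intro p hp
      rw [mem_filter] at hp ⊢
      exact ⟨hp.1, dvd_prod_of_mem _ hp.1, hp.2.2⟩
    rw [← prod_sdiff hsub]
    apply le_mul_of_one_le_left
    · have := prod_ge ((PJ y).filter (fun p => p ∣ h ∧ p ≠ 2)) (fun p hp => by
        rw [mem_filter] at hp
        exact ⟨PJ_prime hp.1, hp.2.2⟩)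
      linarith
    · apply prod_ge
      intro p hp
      rw [Finset.mem_sdiff, mem_filter] at hp
      exact ⟨PJ_prime hp.1.1, hp.1.2.2⟩
  have h2 : 1 ≤ FL y (PR y) := by
    unfold FL
    apply prod_ge
    intro p hp
    rw [mem_filter, Nat.mem_primeFactors] at hp
    exact ⟨hp.1.1, by omega⟩
  have h3 : 0 ≤ FZ y (PR y) := by
    have : 1 ≤ FZ y (PR y) := by
      unfold FZ
      apply prod_ge
      intro p hp
      rw [mem_filter] at hp
      exact ⟨PJ_prime hp.1, hp.2.2⟩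
    linarith
  exact h1.trans (le_mul_of_one_le_right h3 h2)

/-- **small even numbers with almost maximal singular series** -/
theorem FP_max (ε : ℝ) (hε : 0 < ε) : ∀ᶠ N : ℕ in atTop, ∃ P : ℕ, 1 ≤ P ∧ 2 ∣ P ∧ (P : ℝ) ≤ ε * Real.log N ∧
    ∀ h : ℕ, 1 ≤ h → (h : ℝ) ≤ Real.log N ^ 4 → FP h ≤ (1 + ε) * FP P := by
  have hll : Tendsto (fun N : ℕ => Real.log (Real.log (N : ℝ)) / 2) atTop atTop :=
    (Real.tendsto_log_atTop.comp tlog).atTop_div_const (by norm_num)
  have hy : Tendsto (fun N : ℕ => ⌊Real.log (Real.log (N : ℝ)) / 2⌋₊) atTop atTop := tendsto_nat_floor_atTop.comp hll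
  have hT : Tendsto (fun y : ℕ => 16 / Real.log (y : ℝ)) atTop (𝓝 0) := Tendsto.const_div_atTop tlog _
  have hT2 : ∀ᶠ y : ℕ in atTop, Real.exp (16 / Real.log (y : ℝ)) < 1 + ε := by
    have h1 := (Real.continuous_exp.tendsto 0).comp hT
    rw [Real.exp_zero] at h1
    exact h1.eventually_lt_const (by linarith)
  have hpow : ∀ᶠ N : ℕ in atTop, 1 / ε ≤ Real.log (N : ℝ) ^ (3 / 10 : ℝ) :=
    ((tendsto_rpow_atTop (show (0 : ℝ) < 3 / 10 by norm_num)).comp tlog).eventually_ge_atTop _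
  filter_upwards [hy.eventually_ge_atTop 5, hy.eventually hT2, hpow, tlog.eventually_ge_atTop 1] with N h1 h2 h3 h4
  obtain ⟨L, hL⟩ : ∃ L, L = Real.log (N : ℝ) := ⟨_, rfl⟩
  obtain ⟨y, hyd⟩ : ∃ y, y = ⌊Real.log (Real.log (N : ℝ)) / 2⌋₊ := ⟨_, rfl⟩
  rw [← hyd] at h1 h2
  rw [← hL] at h3 h4 hyd ⊢
  have hL0 : 0 < L := by linarith
  have hlL : 0 ≤ Real.log L := Real.log_nonneg h4
  have hy1 : (y : ℝ) ≤ Real.log L / 2 := by rw [hyd]; exact Nat.floor_le (by positivity)
  have hy2 : Real.log L / 2 < y + 1 := by rw [hyd]; exact Nat.lt_floor_add_one _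
  have hy5 : (5 : ℝ) ≤ y := by exact_mod_cast h1
  refine ⟨PR y, PR_pos y, ?_, ?_, ?_⟩
  · unfold PR
    apply dvd_prod_of_mem
    unfold PJ
    rw [mem_filter, mem_Icc]
    exact ⟨by omega, Nat.prime_two⟩
  · have c1 : (PR y : ℝ) ≤ (4 : ℝ) ^ y := by exact_mod_cast PR_le y
    have c2 : (4 : ℝ) ^ y ≤ L ^ (7 / 10 : ℝ) := by
      rw [← Real.rpow_natCast, Real.rpow_def_of_pos (by norm_num), Real.rpow_def_of_pos hL0]
      apply Real.exp_le_exp.2
      have b4 : Real.log 4 = 2 * Real.log 2 := by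
        rw [show (4 : ℝ) = 2 ^ 2 by norm_num, Real.log_pow]
        norm_num
      have b5 := Real.log_two_lt_d9
      have b6 : (0 : ℝ) < Real.log 2 := Real.log_pos (by norm_num)
      rw [b4]
      nlinarith
    have c3 : L ^ (7 / 10 : ℝ) * L ^ (3 / 10 : ℝ) = L := by
      rw [← Real.rpow_add hL0]
      norm_num
    have c4 : 0 < L ^ (7 / 10 : ℝ) := Real.rpow_pos_of_pos hL0 _
    have c5 : L ^ (7 / 10 : ℝ) ≤ ε * L := by
      rw [div_le_iff₀ hε] at h3
      calc L ^ (7 / 10 : ℝ) = L ^ (7 / 10 : ℝ) * 1 := (mul_one _).symm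
        _ ≤ L ^ (7 / 10 : ℝ) * (L ^ (3 / 10 : ℝ) * ε) := mul_le_mul_of_nonneg_left h3 c4.le
        _ = ε * L := by rw [← mul_assoc, c3, mul_comm]
    linarith
  · intro h hh1 hh2
    have hh0 : (0 : ℝ) < h := by exact_mod_cast hh1
    rw [FP_split y h (by omega) hh1]
    have c1 := FZ_le y h (by omega)
    have c2 : FL y h ≤ 1 + ε := by
      refine (FL_bd2 y h (by omega) hh1).trans (le_trans (Real.exp_le_exp.2 ?_) h2.le)
      have hly : 0 < Real.log (y : ℝ) := Real.log_pos (by linarith)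
      have c3 : Real.log (h : ℝ) ≤ 8 * (y + 1) := by
        have d1 := Real.log_le_log hh0 hh2
        rw [Real.log_pow] at d1
        push_cast at d1
        linarith
      rw [div_le_div_iff₀ (mul_pos hly (by linarith)) hly]
      have c4 : 8 * ((y : ℝ) + 1) ≤ 16 * (y - 2) := by linarith
      calc Real.log (h : ℝ) * Real.log y ≤ (16 * (y - 2)) * Real.log y := mul_le_mul_of_nonneg_right (c3.trans c4) hly.le
        _ = 16 * (Real.log y * (y - 2)) := by ring
    have c3 : 0 ≤ FL y h := by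
      have : 1 ≤ FL y h := by
        unfold FL
        apply prod_ge
        intro p hp
        rw [mem_filter, Nat.mem_primeFactors] at hp
        exact ⟨hp.1.1, by omega⟩
      linarith
    have c4 := FP_ge (PR y)
    calc FZ y h * FL y h ≤ FP (PR y) * (1 + ε) := mul_le_mul c1 c2 c3 (by linarith)
      _ = (1 + ε) * FP (PR y) := mul_comm _ _

end Pool.Agent.T2H62.MK
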