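import Pool.Agent.T2H62.MK.E
import Pool.Agent.T2H62.ME.E

set_option autoImplicit false

/-! # The number of the gaps of a given size and the most frequent gaps -/

namespace Pool.Agent.T2H62.MK

open Finset Filter Topology MeasureTheory ProbabilityTheory
open Pool.Agent.T2H62.MD
open Pool.Agent.T2H53.GW
open Pool.Agent.T2H62.MM (tlog)
open Pool.Agent.T2H62.MG (gp gp_iff)
open Pool.Agent.T2H62.MT (SG pr_zero)
open Pool.Agent.T2H62.ME (gap_law exp_lip)

section det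

open scoped Classical in
/-- the number of the gaps equal to `h` -/
noncomputable def NG (R : Set ℕ) (h N : ℕ) : ℕ := ((Ioc N (2 * N)).filter (fun r => r ∈ R ∧ gp R r = h)).card

open scoped Classical in
/-- the number of the pairs `r`, `r + h` with an empty window of length `H` after `r` -/
noncomputable def CR (R : Set ℕ) (N h H : ℕ) : ℕ := ((Ioc N (2 * N)).filter (fun r => r ∈ R ∧ r + h ∈ R ∧ ∀ a ∈ Icc 1 H, r + a ∉ R)).card

variable {R : Set ℕ}

theorem gp_mem (hR : ∀ a : ℕ, ∃ n, a < n ∧ n ∈ R) (r : ℕ) : 0 < gp R r ∧ r + gp R r ∈ R := by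
  have hne : {g : ℕ | 0 < g ∧ r + g ∈ R}.Nonempty := by
    obtain ⟨n, h1, h2⟩ := hR r
    refine ⟨n - r, by omega, ?_⟩
    have : r + (n - r) = n := by omega
    rw [this]
    exact h2
  exact Nat.sInf_mem hne

theorem NG_le (hR : ∀ a : ℕ, ∃ n, a < n ∧ n ∈ R) (N h H : ℕ) (hH : H < h) : NG R h N ≤ CR R N h H := by
  classical
  unfold NG CR
  apply card_le_card
  intro r hr
  rw [mem_filter] at hr ⊢
  obtain ⟨h1, h2, h3⟩ := hr
  refine ⟨h1, h2, ?_, ?_⟩
  · rw [← h3]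
    exact (gp_mem hR r).2
  · exact (gp_iff hR r H).1 (by omega)

theorem NG_eq (hR : ∀ a : ℕ, ∃ n, a < n ∧ n ∈ R) (N h : ℕ) (hh : 1 ≤ h) : NG R h N = CR R N h (h - 1) := by
  classical
  unfold NG CR
  congr 1
  apply filter_congr
  intro r _
  constructor
  · rintro ⟨h1, h2⟩
    refine ⟨h1, ?_, ?_⟩
    · rw [← h2]
      exact (gp_mem hR r).2
    · exact (gp_iff hR r (h - 1)).1 (by omega)
  · rintro ⟨h1, h2, h3⟩
    refine ⟨h1, ?_⟩
    have h4 := (gp_iff hR r (h - 1)).2 h3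
    have h5 : gp R r ≤ h := Nat.sInf_le ⟨by omega, h2⟩
    omega

theorem NG_zero (hR : ∀ a : ℕ, ∃ n, a < n ∧ n ∈ R) (N : ℕ) : NG R 0 N = 0 := by
  classical
  unfold NG
  rw [card_eq_zero, filter_eq_empty_iff]
  intro r _ h1
  have := (gp_mem hR r).1
  omega

theorem FP_mul (h p : ℕ) (hh : 1 ≤ h) (hp : p.Prime) (hp2 : p ≠ 2) (hph : ¬ p ∣ h) : FP (p * h) = ((p : ℝ) - 1) / (p - 2) * FP h := by
  unfold FP
  have h1 : (p * h).primeFactors.erase 2 = insert p (h.primeFactors.erase 2) := by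
    ext q
    rw [mem_erase, mem_insert, mem_erase, Nat.mem_primeFactors, Nat.mem_primeFactors]
    constructor
    · rintro ⟨h1, h2, h3, h4⟩
      rcases (Nat.Prime.dvd_mul h2).1 h3 with h5 | h5
      · exact Or.inl ((Nat.prime_dvd_prime_iff_eq h2 hp).1 h5)
      · exact Or.inr ⟨h1, h2, h5, by omega⟩
    · rintro (rfl | ⟨h1, h2, h3, h4⟩)
      · exact ⟨hp2, hp, Dvd.intro _ rfl, by have := hp.pos; positivity⟩
      · exact ⟨h1, h2, Dvd.dvd.mul_left h3 p, by have := hp.pos; positivity⟩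
  have h2 : p ∉ h.primeFactors.erase 2 := by
    rw [mem_erase, Nat.mem_primeFactors]
    rintro ⟨-, -, h3, -⟩
    exact hph h3
  rw [h1, prod_insert h2]

/-- the estimate for the pairs -/
def Est (σ : ℝ) (R : Set ℕ) : Prop := ∀ (B : ℕ) (lam : ℝ), 0 < lam → ∀ ε : ℝ, 0 < ε → ∀ᶠ N : ℕ in atTop, ∀ h H : ℕ,
  1 ≤ h → 2 ∣ h → (h : ℝ) ≤ Real.log N ^ B → H < h → (H : ℝ) ≤ lam * Real.log N →
    |(CR R N h H : ℝ) - σ * FP h * Real.exp (-(H / Real.log N)) * (N / Real.log N ^ 2)| ≤ ε * (σ * FP h * (N / Real.log N ^ 2))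

/-- **the number of the gaps equal to `h`** -/
theorem NG_law (hR : ∀ a : ℕ, ∃ n, a < n ∧ n ∈ R) (σ : ℝ) (hσ : 0 < σ) (hE : Est σ R) (lam : ℝ) (hl : 0 < lam) (ε : ℝ) (hε : 0 < ε) :
    ∀ᶠ N : ℕ in atTop, ∀ h : ℕ, 1 ≤ h → 2 ∣ h → (h : ℝ) ≤ lam * Real.log N →
      |(NG R h N : ℝ) - σ * FP h * Real.exp (-(h / Real.log N)) * (N / Real.log N ^ 2)| ≤
        ε * (σ * FP h * Real.exp (-(h / Real.log N)) * (N / Real.log N ^ 2)) := by
  obtain ⟨δ, hδ⟩ : ∃ δ, δ = ε * Real.exp (-lam) / 2 := ⟨_, rfl⟩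
  have hδ0 : 0 < δ := by rw [hδ]; positivity
  filter_upwards [hE 2 lam hl δ hδ0, tlog.eventually_ge_atTop (1 / δ + lam + 1), eventually_ge_atTop 1] with N h1 h2 h3 h hh1 hh2 hhl
  obtain ⟨L, hL⟩ : ∃ L, L = Real.log (N : ℝ) := ⟨_, rfl⟩
  have hδ1 : 0 < 1 / δ := by positivity
  have k1 := h1 h (h - 1) hh1 hh2
  rw [← hL] at k1 h2 hhl ⊢
  have hL0 : 0 < L := by linarith
  have hN0 : (0 : ℝ) < N := by exact_mod_cast h3
  have hcast : ((h - 1 : ℕ) : ℝ) = h - 1 := by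
    rw [Nat.cast_sub hh1, Nat.cast_one]
  have hh0 : (1 : ℝ) ≤ h := by exact_mod_cast hh1
  rw [hcast] at k1
  have k2 := k1 (by
    rw [sq]
    exact hhl.trans (mul_le_mul_of_nonneg_right (by linarith) hL0.le)) (by omega) (by linarith)
  rw [NG_eq hR N h hh1]
  obtain ⟨W, hW⟩ : ∃ W, W = σ * FP h * ((N : ℝ) / L ^ 2) := ⟨_, rfl⟩
  have hW0 : 0 < W := by rw [hW]; have := FP_ge h; positivity
  have e1 : σ * FP h * Real.exp (-((h - 1 : ℝ) / L)) * (N / L ^ 2) = Real.exp (-((h - 1 : ℝ) / L)) * W := by rw [hW]; ring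
  have e2 : σ * FP h * Real.exp (-((h : ℝ) / L)) * (N / L ^ 2) = Real.exp (-((h : ℝ) / L)) * W := by rw [hW]; ring
  rw [e1, ← hW] at k2
  rw [e2]
  have b1 := exp_lip ((h - 1 : ℝ) / L) ((h : ℝ) / L) (div_nonneg (by linarith) hL0.le) (by positivity)
  have b2 : |((h - 1 : ℝ) / L) - (h : ℝ) / L| ≤ δ := by
    have : ((h - 1 : ℝ) / L) - (h : ℝ) / L = -(1 / L) := by ring
    rw [this, abs_neg, abs_of_pos (by positivity), div_le_iff₀ hL0]
    have : δ * (1 / δ) ≤ δ * L := mul_le_mul_of_nonneg_left (by linarith) hδ0.le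
    rwa [mul_one_div_cancel hδ0.ne'] at this
  have b3 : Real.exp (-lam) ≤ Real.exp (-((h : ℝ) / L)) := by
    apply Real.exp_le_exp.2
    have : (h : ℝ) / L ≤ lam := by rw [div_le_iff₀ hL0]; exact hhl
    linarith
  have b4 : |Real.exp (-((h - 1 : ℝ) / L)) * W - Real.exp (-((h : ℝ) / L)) * W| ≤ δ * W := by
    rw [← sub_mul, abs_mul, abs_of_pos hW0]
    exact mul_le_mul_of_nonneg_right (b1.trans b2) hW0.le
  calc |(CR R N h (h - 1) : ℝ) - Real.exp (-((h : ℝ) / L)) * W| ≤ |(CR R N h (h - 1) : ℝ) - Real.exp (-((h - 1 : ℝ) / L)) * W| +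
        |Real.exp (-((h - 1 : ℝ) / L)) * W - Real.exp (-((h : ℝ) / L)) * W| := abs_sub_le _ _ _
    _ ≤ δ * W + δ * W := add_le_add k2 b4
    _ = ε * (Real.exp (-lam) * W) := by rw [hδ]; ring
    _ ≤ ε * (Real.exp (-((h : ℝ) / L)) * W) := by
        apply mul_le_mul_of_nonneg_left _ hε.le
        exact mul_le_mul_of_nonneg_right b3 hW0.le

/-- **every prime divides all late champions** -/
theorem champ (hR : ∀ a : ℕ, ∃ n, a < n ∧ n ∈ R) (σ : ℝ) (hσ : 0 < σ) (hE : Est σ R)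
    (hodd : ∀ᶠ N : ℕ in atTop, ∀ h : ℕ, ¬ 2 ∣ h → NG R h N = 0)
    (hlong : ∀ᶠ N : ℕ in atTop, ∀ h : ℕ, Real.log (N : ℝ) ^ 4 < h → NG R h N = 0) (p : ℕ) (hp : p.Prime) :
    ∀ᶠ N : ℕ in atTop, ∀ h : ℕ, (∀ h' : ℕ, NG R h' N ≤ NG R h N) → p ∣ h := by
  -- the constants
  obtain ⟨c, hc⟩ : ∃ c : ℝ, c = if p = 2 then 2 else ((p : ℝ) - 1) / (p - 2) := ⟨_, rfl⟩
  have hc1 : 1 < c := by
    rw [hc]
    split_ifs with h1
    · norm_num
    · have h3 : (3 : ℝ) ≤ p := by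
        have := hp.two_le
        exact_mod_cast (by omega : 3 ≤ p)
      rw [lt_div_iff₀ (by linarith)]
      linarith
  have hp2 : (2 : ℝ) ≤ p := by exact_mod_cast hp.two_le
  obtain ⟨l1, hl1⟩ : ∃ l1 : ℝ, l1 = (c - 1) / (4 * c * p) := ⟨_, rfl⟩
  have hl10 : 0 < l1 := by rw [hl1]; apply div_pos (by linarith); positivity
  have hpl1 : p * l1 = (c - 1) / (4 * c) := by rw [hl1]; field_simp
  have hpl1' : p * l1 ≤ 1 / 4 := by
    rw [hpl1, div_le_div_iff₀ (by positivity) (by norm_num)]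
    linarith
  have hl11 : l1 ≤ 1 / 4 := by nlinarith
  obtain ⟨e3, he3⟩ : ∃ e3 : ℝ, e3 = (c - 1) / (4 * (1 + c)) := ⟨_, rfl⟩
  have he30 : 0 < e3 := by rw [he3]; apply div_pos (by linarith); positivity
  obtain ⟨ρ, hρ⟩ : ∃ ρ : ℝ, ρ = 1 - Real.exp (-(l1 / 2)) := ⟨_, rfl⟩
  have hρ0 : 0 < ρ := by
    have : Real.exp (-(l1 / 2)) < Real.exp 0 := Real.exp_lt_exp.2 (by linarith)
    rw [Real.exp_zero] at this
    linarith
  have hρ1 : ρ ≤ 1 := by
    have := Real.exp_pos (-(l1 / 2))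
    linarith
  obtain ⟨e2, he2⟩ : ∃ e2 : ℝ, e2 = ρ / 8 := ⟨_, rfl⟩
  have he20 : 0 < e2 := by rw [he2]; positivity
  filter_upwards [hE 4 1 one_pos e2 he20, hE 4 1 one_pos e3 he30, FP_max e2 he20, hodd, hlong, tlog.eventually_ge_atTop (2 / l1 + 1), eventually_ge_atTop 1]
    with N h1 h2 h3 h4 h5 h6 h6' h hmax
  obtain ⟨L, hL⟩ : ∃ L, L = Real.log (N : ℝ) := ⟨_, rfl⟩
  rw [← hL] at h1 h2 h3 h5 h6
  have hl12 : 0 < 2 / l1 := by positivity
  have hL1 : 1 ≤ L := by linarith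
  have hL0 : 0 < L := by linarith
  have hN0 : (0 : ℝ) < N := by exact_mod_cast h6'
  obtain ⟨W, hW⟩ : ∃ W, W = σ * ((N : ℝ) / L ^ 2) := ⟨_, rfl⟩
  have hW0 : 0 < W := by rw [hW]; positivity
  obtain ⟨P, hP1, hP2, hP3, hP4⟩ := h3
  have hL4 : L ≤ L ^ 4 := by
    calc L = L ^ 1 := (pow_one L).symm
      _ ≤ L ^ 4 := pow_le_pow_right₀ hL1 (by norm_num)
  have heP : ∀ x E : ℝ, σ * x * E * ((N : ℝ) / L ^ 2) = E * (x * W) := by intro x E; rw [hW]; ring
  have heP' : ∀ x : ℝ, σ * x * ((N : ℝ) / L ^ 2) = x * W := by intro x; rw [hW]; ring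
  have he21 : e2 ≤ 1 / 8 := by rw [he2]; linarith
  -- the value at `P`
  have hNP : (1 - 2 * e2) * (FP P * W) ≤ (NG R P N : ℝ) := by
    have hPL : (P : ℝ) ≤ L := by nlinarith
    have hcast : ((P - 1 : ℕ) : ℝ) = P - 1 := by rw [Nat.cast_sub hP1, Nat.cast_one]
    have k1 := (abs_le.1 (h1 P (P - 1) hP1 hP2 (hPL.trans hL4) (by omega) (by rw [hcast]; linarith))).1
    rw [heP, heP', hcast] at k1
    rw [NG_eq hR N P hP1]
    have k2 : 1 - e2 ≤ Real.exp (-((P - 1 : ℝ) / L)) := by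
      have c1 := Real.add_one_le_exp (-((P - 1 : ℝ) / L))
      have c2 : (P - 1 : ℝ) / L ≤ e2 := by
        rw [div_le_iff₀ hL0]
        linarith
      linarith
    have k3 : (1 - e2) * (FP P * W) ≤ Real.exp (-((P - 1 : ℝ) / L)) * (FP P * W) :=
      mul_le_mul_of_nonneg_right k2 (mul_nonneg (by linarith [FP_ge P]) hW0.le)
    linarith
  have hNP0 : (0 : ℝ) < NG R P N := by
    have : 0 < (1 - 2 * e2) * (FP P * W) := mul_pos (by linarith) (mul_pos (by linarith [FP_ge P]) hW0)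
    linarith
  have hmaxP : (NG R P N : ℝ) ≤ NG R h N := by exact_mod_cast hmax P
  have hNh : NG R h N ≠ 0 := by
    intro h7
    rw [h7, Nat.cast_zero] at hmaxP
    linarith
  have hh2 : 2 ∣ h := by
    by_contra h7
    exact hNh (h4 h h7)
  have hh1 : 1 ≤ h := by
    rcases Nat.eq_zero_or_pos h with h7 | h7
    · rw [h7] at hNh
      exact absurd (NG_zero hR N) hNh
    · exact h7
  have hhL : (h : ℝ) ≤ L ^ 4 := by
    by_contra h7
    push Not at h7
    exact hNh (h5 h h7)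
  by_cases hp' : p = 2
  · rw [hp']
    exact hh2
  have hcp : c = ((p : ℝ) - 1) / (p - 2) := by rw [hc, if_neg hp']
  have hFh := FP_ge h
  by_contra hph
  -- the champion is small
  have hsmall : (h : ℝ) ≤ l1 * L := by
    by_contra h7
    push Not at h7
    obtain ⟨H, hH⟩ : ∃ H, H = ⌊l1 * L⌋₊ := ⟨_, rfl⟩
    have hH1 : (H : ℝ) ≤ l1 * L := by rw [hH]; exact Nat.floor_le (by positivity)
    have hH2 : l1 * L < H + 1 := by rw [hH]; exact Nat.lt_floor_add_one _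
    have hHh : H < h := by
      have : (H : ℝ) < h := lt_of_le_of_lt hH1 h7
      exact_mod_cast this
    have k1 := (abs_le.1 (h1 h H hh1 hh2 hhL hHh (by nlinarith))).2
    rw [heP, heP'] at k1
    have k2 : Real.exp (-((H : ℝ) / L)) ≤ 1 - ρ := by
      rw [hρ, sub_sub_cancel]
      apply Real.exp_le_exp.2
      have c1 : l1 / 2 ≤ (H : ℝ) / L := by
        rw [le_div_iff₀ hL0]
        have c2 : 1 ≤ l1 * L / 2 := by
          have : l1 * (2 / l1) ≤ l1 * L := mul_le_mul_of_nonneg_left (by linarith) hl10.le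
          have e : l1 * (2 / l1) = 2 := by field_simp
          linarith
        linarith
      linarith
    have k3 : (NG R h N : ℝ) ≤ CR R N h H := by exact_mod_cast NG_le hR N h H hHh
    have hFW : 0 < FP h * W := mul_pos (by linarith) hW0
    have k4 : (NG R h N : ℝ) ≤ (1 - ρ + e2) * (FP h * W) := by
      have := mul_le_mul_of_nonneg_right k2 hFW.le
      linarith
    have k5 : FP h * W ≤ (1 + e2) * FP P * W := mul_le_mul_of_nonneg_right (hP4 h hh1 hhL) hW0.le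
    have k6 : (1 - ρ + e2) * (FP h * W) ≤ (1 - ρ + e2) * ((1 + e2) * FP P * W) := mul_le_mul_of_nonneg_left k5 (by linarith)
    have hFP0 : 0 < FP P * W := mul_pos (by linarith [FP_ge P]) hW0
    have k7 : (1 - ρ + e2) * (1 + e2) < 1 - 2 * e2 := by
      rw [he2]
      nlinarith
    have k8 : (1 - ρ + e2) * ((1 + e2) * FP P * W) < (1 - 2 * e2) * (FP P * W) := by
      have := mul_lt_mul_of_pos_right k7 hFP0
      nlinarith
    linarith
  -- compare with `p h`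
  have hph2 : ((p * h : ℕ) : ℝ) ≤ p * l1 * L := by
    push_cast
    rw [mul_assoc]
    exact mul_le_mul_of_nonneg_left hsmall (by linarith)
  have hph1 : 1 ≤ p * h := Nat.mul_pos hp.pos hh1
  have hphL : ((p * h : ℕ) : ℝ) ≤ L := by nlinarith
  have hcast : ((p * h - 1 : ℕ) : ℝ) = ((p * h : ℕ) : ℝ) - 1 := by rw [Nat.cast_sub hph1, Nat.cast_one]
  have k1 := (abs_le.1 (h2 (p * h) (p * h - 1) hph1 (Dvd.dvd.mul_left hh2 p) (hphL.trans hL4) (by omega) (by rw [hcast]; linarith))).1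
  rw [heP, heP', hcast, FP_mul h p hh1 hp hp' hph, ← hcp] at k1
  have k2 : (NG R (p * h) N : ℝ) ≤ NG R h N := by exact_mod_cast hmax (p * h)
  rw [NG_eq hR N (p * h) hph1] at k2
  have k3 : 1 - (c - 1) / (4 * c) ≤ Real.exp (-((((p * h : ℕ) : ℝ) - 1) / L)) := by
    have c1 := Real.add_one_le_exp (-((((p * h : ℕ) : ℝ) - 1) / L))
    have c2 : (((p * h : ℕ) : ℝ) - 1) / L ≤ (c - 1) / (4 * c) := by
      rw [div_le_iff₀ hL0, ← hpl1]
      linarith
    linarith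
  have k4 : (NG R h N : ℝ) ≤ (1 + e3) * (FP h * W) := by
    have c1 := (abs_le.1 (h2 h 0 hh1 hh2 hhL hh1 (by rw [Nat.cast_zero]; linarith))).2
    rw [heP, heP', Nat.cast_zero, zero_div, neg_zero, Real.exp_zero, one_mul] at c1
    have c2 : (NG R h N : ℝ) ≤ CR R N h 0 := by exact_mod_cast NG_le hR N h 0 hh1
    linarith
  have hFW : 0 < FP h * W := mul_pos (by linarith) hW0
  have k5 : (1 - (c - 1) / (4 * c)) * (c * FP h * W) ≤ Real.exp (-((((p * h : ℕ) : ℝ) - 1) / L)) * (c * FP h * W) :=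
    mul_le_mul_of_nonneg_right k3 (by positivity)
  have k6 : (1 - (c - 1) / (4 * c)) * c = c - (c - 1) / 4 := by field_simp
  have k7 : (c - (c - 1) / 4 - e3 * c) * (FP h * W) ≤ (1 + e3) * (FP h * W) := by
    have e1 : (1 - (c - 1) / (4 * c)) * (c * FP h * W) = ((1 - (c - 1) / (4 * c)) * c) * (FP h * W) := by ring
    rw [e1, k6] at k5
    have e2 : e3 * (c * FP h * W) = e3 * c * (FP h * W) := by ring
    linarith
  have k8 := le_of_mul_le_mul_right k7 hFW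
  have k9 : e3 * (1 + c) = (c - 1) / 4 := by rw [he3]; field_simp
  nlinarith

end det

end Pool.Agent.T2H62.MK
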